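import Pool.Agent.H55.PB.Family
import Pool.Agent.H51.SB.Harb

set_option autoImplicit false
set_option linter.unusedSectionVars false

/-!
# The bounds for the family of the systems `D + j (H - E)`
-/

namespace Pool.Agent.H55.PB

open MvPolynomial Module Pool.Agent.W609.CR Pool.Agent.TH167.SH Pool.Agent.H248R5
  Pool.Agent.H248R6 Pool.Agent.K4H28.SP

/-- The numerical properties of a family. -/
structure Seq (G r : ℕ → ℕ) (e : ℕ) : Prop where
  succ : ∀ j, G (j + 1) = r (j + 1) + G j
  le : ∀ j, r j ≤ e + 1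
  le_G : ∀ j, r j ≤ G j
  grow : ∀ j, 1 ≤ G (j + 1) → r j + 1 ≤ r (j + 1) ∨ e + 1 ≤ r (j + 1)

section num

variable {G r X : ℕ → ℕ} {e d t : ℕ}

theorem Seq.mono (h : Seq G r e) {i j : ℕ} (hij : i ≤ j) : G i ≤ G j := by
  induction j, hij using Nat.le_induction with
  | base => exact le_rfl
  | succ j _ ih =>
    have := h.succ j
    omega

theorem Seq.full (h : Seq G r e) (h0 : 1 ≤ G d) (h1 : e + 1 ≤ r (d + 1)) (l : ℕ) :
    e + 1 ≤ r (d + 1 + l) := by
  induction l with
  | zero => exact h1
  | succ l ih =>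
    have h2 := h.grow (d + 1 + l) (h0.trans (h.mono (by omega)))
    have h3 := h.le (d + 1 + l + 1)
    have e1 : d + 1 + (l + 1) = d + 1 + l + 1 := rfl
    rw [e1]
    omega

theorem Seq.up (h : Seq G r e) (h0 : 1 ≤ G d) (l : ℕ) :
    r d + l ≤ r (d + l) ∨ e + 1 ≤ r (d + l) := by
  induction l with
  | zero => exact Or.inl le_rfl
  | succ l ih =>
    have h2 := h.grow (d + l) (h0.trans (h.mono (by omega)))
    have h3 := h.le (d + l + 1)
    have e1 : d + (l + 1) = d + l + 1 := rfl
    rw [e1]
    omega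

theorem Seq.down (h : Seq G r e) (h0 : r d ≤ e) : ∀ l, l ≤ d → r (d - l) ≤ r d - l := by
  intro l
  induction l with
  | zero => intro _; exact le_rfl
  | succ l ih =>
    intro hl
    have h1 := ih (by omega)
    obtain ⟨j, hj⟩ : ∃ j, d - l = j + 1 := ⟨d - (l + 1), by omega⟩
    have e1 : d - (l + 1) = j := by omega
    rw [e1]
    rw [hj] at h1
    rcases Nat.eq_zero_or_pos (G (j + 1)) with h2 | h2
    · have h3 := h.succ j
      have h4 := h.le_G j
      omega
    · rcases h.grow j h2 with h3 | h3
      · omega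
      · omega

/-- The joint bound. -/
theorem Seq.bound (h : Seq G r e) (hX : ∀ j, d ≤ j → X j + r (j + 1) = X (j + 1) + (e + 1))
    (hG : 1 ≤ G d) (hXd : 1 ≤ X d) (hte : t ≤ e) (htd : t ≤ d) (h1 : G (d - t) = 0)
    (h2 : X (d + t) = 0) : 1 ≤ t ∧ 2 * (G d + X d) + t * t + t ≤ 2 + 2 * t * e := by
  have ht : 1 ≤ t := by
    by_contra hcon
    have : t = 0 := by omega
    subst this
    rw [Nat.add_zero] at h2
    omega
  refine ⟨ht, ?_⟩
  obtain ⟨d', rfl⟩ : ∃ d', d = d' + 1 := ⟨d - 1, by omega⟩
  have hr1 : 1 ≤ r (d' + 1) := by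
    rcases h.grow d' hG with h3 | h3 <;> omega
  have hr2 : r (d' + 1 + 1) ≤ e := by
    by_contra hcon
    have h3 := h.full hG (by omega)
    have h4 : ∀ l, X (d' + 1 + l) = X (d' + 1) := by
      intro l
      induction l with
      | zero => rfl
      | succ l ih =>
        have h5 := hX (d' + 1 + l) (by omega)
        have h6 := h3 l
        have h7 := h.le (d' + 1 + l + 1)
        have e1 : d' + 1 + 1 + l = d' + 1 + l + 1 := by omega
        rw [e1] at h6
        have e2 : d' + 1 + (l + 1) = d' + 1 + l + 1 := rfl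
        rw [e2]
        omega
    have h5 := h4 t
    omega
  have hr3 : r (d' + 1) + 1 ≤ e := by
    have h3 := h.grow (d' + 1) (hG.trans (h.mono (by omega)))
    omega
  have key : ∀ u, 1 ≤ u → u ≤ t → 2 * (G (d' + 1) + X (d' + 1)) + u * u + u ≤
      2 * (G (d' + 1 - u) + X (d' + 1 + u)) + 2 + 2 * u * e := by
    intro u hu
    induction u, hu using Nat.le_induction with
    | base =>
      intro _
      have h3 := h.succ d'
      have h4 := hX (d' + 1) le_rfl
      have h5 := h.grow (d' + 1) (hG.trans (h.mono (by omega)))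
      have e1 : d' + 1 - 1 = d' := rfl
      rw [e1]
      omega
    | succ u hu ih =>
      intro hut
      have h3 := ih (by omega)
      have h4 := h.down (d := d' + 1) (by omega) u (by omega)
      have h5 := h.up hG (u + 1)
      have h6 := hX (d' + 1 + u) (by omega)
      obtain ⟨j, hj⟩ : ∃ j, d' + 1 - u = j + 1 := ⟨d' - u, by omega⟩
      have e1 : d' + 1 - (u + 1) = j := by omega
      have h7 := h.succ j
      rw [e1]
      rw [hj] at h3 h4
      have e2 : d' + 1 + (u + 1) = d' + 1 + u + 1 := rfl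
      rw [e2] at h5 ⊢
      have h8 : G (j + 1) + X (d' + 1 + u) + 1 + u ≤ G j + X (d' + 1 + u + 1) + e := by
        omega
      have e3 : 2 * (u + 1) * e = 2 * u * e + 2 * e := by ring
      have e4 : (u + 1) * (u + 1) = u * u + 2 * u + 1 := by ring
      rw [e3, e4]
      omega
  have h3 := key t ht le_rfl
  rw [h1, h2] at h3
  omega

end num

variable {s : ℕ} {m κ : Fin s → ℕ} {d k e b : ℕ} {p : Fin s}

theorem rr_le_gd : rr m d p ≤ gd m d := by
  unfold rr RR
  refine (Submodule.finrank_map_le _ _).trans ?_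
  rw [gd_ext0]

theorem seq_inst : Seq (GG m p e) (rg m p e) e where
  succ := GG_succ
  le := rg_le
  le_G := fun _ => rr_le_gd
  grow := fun _ h => rg_grow h

theorem low_fam {j : ℕ} : low (fam m p e j) (Pi.single p k) = fam m p e (j - k) := by
  funext i
  unfold low
  by_cases h : i = p
  · subst h
    rw [Pi.single_eq_same, fam_self, fam_self]
    omega
  · rw [Pi.single_eq_of_ne h, fam_of_ne h, fam_of_ne h, Nat.sub_zero]

/-- The points of the set `T` impose independent conditions in the family. -/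
def Base (m : Fin s → ℕ) (p : Fin s) (e : ℕ) (T : Finset (Fin s)) (d : ℕ) : Prop :=
  ∀ j, d ≤ j → 1 ≤ GG m p e j →
    gd (res (fam m p e j) T) j + ∑ i ∈ T, (fam m p e j i + 1).choose 2 = (j + 2).choose 2

theorem nonspecial {T : Finset (Fin s)} (hp : p ∈ T) (hT : ∀ i, i ∉ T → m i ≤ b)
    (hbe : b ≤ e + 1) (hed : e ≤ d) (hbase : Base m p e T d) {j : ℕ} (hj : d ≤ j)
    (hne : 1 ≤ GG m p e (j - (b - 1))) : GG m p e j + cc m p e j = (j + 2).choose 2 := by
  have hmono := (seq_inst (m := m) (p := p) (e := e)).mono (Nat.sub_le j (b - 1))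
  have h1 := hbase j hj (hne.trans hmono)
  have e1 : j - (b - 1) + (b - 1) = j := by omega
  have h2 := gd_pencils (m := fam m p e j) (κ := Pi.single p (b - 1)) (d := j - (b - 1))
    (k := b - 1) (by rw [Finset.sum_pi_single' p (b - 1), if_pos (Finset.mem_univ p)])
    (fun i hi => by
      by_cases h : i = p
      · subst h
        rw [fam_self]
        omega
      · rw [Pi.single_eq_of_ne h] at hi
        omega) (by
      rw [low_fam]
      exact hne) hp (by
      rw [fam_self]
      omega) (fun i hi => by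
      have h : i ≠ p := fun h => hi (h ▸ hp)
      rw [fam_of_ne h]
      have := hT i hi
      omega) (by rw [e1]; exact h1)
  rw [e1] at h2
  exact h2

/-- **The joint bound.** -/
theorem joint {T : Finset (Fin s)} (hp : p ∈ T) (hT : ∀ i, i ∉ T → m i ≤ b)
    (hbe : b ≤ e + 1) (hd : m p + e = d) (hbase : Base m p e T d) (hne : 1 ≤ gd m d) {x : ℕ}
    (hx : gd m d + ∑ i, (m i + 1).choose 2 = (d + 2).choose 2 + x) (hx0 : 1 ≤ x) :
    2 ≤ b ∧ 2 * (gd m d + x) + (b - 1) * (b - 1) + (b - 1) ≤ 2 + 2 * (b - 1) * e := by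
  have hge : ∀ j, (j + 2).choose 2 ≤ GG m p e j + cc m p e j := fun j => gd_ge
  have hfam := fam_eq hd
  have hG : GG m p e d = gd m d := by unfold GG; rw [hfam]
  have hc : cc m p e d = ∑ i, (m i + 1).choose 2 := by unfold cc; rw [hfam]
  have h1 := (seq_inst (m := m) (p := p) (e := e)).bound (d := d) (t := b - 1)
    (X := fun j => GG m p e j + cc m p e j - (j + 2).choose 2) (fun j hj => by
      have h2 := GG_cc (m := m) (p := p) (e := e) (j := j) (by omega)
      have h3 := hge j
      have h4 := hge (j + 1)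
      beta_reduce
      omega) (by omega) (by
      beta_reduce
      omega) (by omega) (by omega) (by
      by_contra hcon
      have h2 := nonspecial hp hT hbe (by omega) hbase le_rfl (by omega)
      omega) (by
      beta_reduce
      have e1 : d + (b - 1) - (b - 1) = d := by omega
      have h2 := nonspecial (j := d + (b - 1)) hp hT hbe (by omega) hbase (by omega) (by
        rw [e1]
        omega)
      omega)
  beta_reduce at h1
  have e2 : GG m p e d + cc m p e d - (d + 2).choose 2 = x := by omega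
  rw [e2, hG] at h1
  exact ⟨by omega, h1.2⟩

/-- **The special systems of the family are in a short window.** -/
theorem window {T : Finset (Fin s)} (hp : p ∈ T) (hT : ∀ i, i ∉ T → m i ≤ b)
    (hbe : b ≤ e + 1) (hed : e ≤ d) (hbase : Base m p e T d) :
    ∃ j₀, ∀ j, 1 ≤ GG m p e (d + j) → GG m p e (d + j) + cc m p e (d + j) ≠
      (d + j + 2).choose 2 → j₀ ≤ j ∧ j < j₀ + (b - 1) := by
  classical
  by_cases h : ∃ j, 1 ≤ GG m p e (d + j)
  · refine ⟨Nat.find h, fun j h1 h2 => ?_⟩
    refine ⟨Nat.find_min' h h1, ?_⟩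
    by_contra hcon
    apply h2
    refine nonspecial hp hT hbe hed hbase (by omega) ?_
    refine (Nat.find_spec h).trans ((seq_inst (m := m) (p := p) (e := e)).mono ?_)
    omega
  · push Not at h
    refine ⟨0, fun j h1 _ => ?_⟩
    have := h j
    omega

end Pool.Agent.H55.PB
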