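import Pool.Agent.H55.PB.Jets2

set_option autoImplicit false
set_option linter.unusedSectionVars false

/-!
# Adding points of small multiplicity, if pencils can be subtracted
-/

namespace Pool.Agent.H55.PB

open MvPolynomial Module Pool.Agent.W609.CR Pool.Agent.TH167.SH Pool.Agent.H248R5
  Pool.Agent.H248R6 Pool.Agent.K4H28.SP

section gen

variable {K : Type} [Field K] [CharZero K] {n : ℕ}
variable {P : Fin n → Fin 2 → K} {d k : ℕ} {q : Fin n} {w m κ : Fin n → ℕ}

theorem update_le_update {μ : ℕ} (r : ℕ) :
    finrank K (forms (Function.update w q μ) P d) + (μ + 1).choose 2 ≤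
      finrank K (forms (Function.update w q (μ + r)) P d) + (μ + r + 1).choose 2 := by
  induction r with
  | zero => exact le_rfl
  | succ r ih =>
    have h1 := finrank_II (P := P) (d := d) (q := q) (w := w) (k := μ + r)
    have h2 : (μ + r + 1 + 1).choose 2 = (μ + r + 1).choose 1 + (μ + r + 1).choose 2 :=
      Nat.choose_succ_succ' (μ + r + 1) 1
    rw [Nat.choose_one_right] at h2
    unfold LL at h1
    have e : μ + (r + 1) = μ + r + 1 := rfl
    rw [e]
    omega

/-- The pencil at `a` is replaced by the pencil at `t`. -/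
def mv (κ : Fin n → ℕ) (a t : Fin n) : Fin n → ℕ := fun i =>
  if i = a then 0 else if i = t then κ t + κ a else κ i

theorem sum_mv {a t : Fin n} (h : t ≠ a) : ∑ i, mv κ a t i = ∑ i, κ i := by
  classical
  have h1 : ∀ i, mv κ a t i + (if i = a then κ a else 0) = κ i + (if i = t then κ a else 0) := by
    intro i
    unfold mv
    by_cases h2 : i = a
    · subst h2
      rw [if_pos rfl, if_pos rfl, if_neg h.symm]
      omega
    · rw [if_neg h2, if_neg h2]
      by_cases h3 : i = t
      · subst h3
        rw [if_pos rfl, if_pos rfl, Nat.add_zero]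
      · rw [if_neg h3, if_neg h3]
  have h2 := Finset.sum_congr (rfl : (Finset.univ : Finset (Fin n)) = Finset.univ)
    fun i _ => h1 i
  rw [Finset.sum_add_distrib, Finset.sum_add_distrib, Finset.sum_ite_eq', Finset.sum_ite_eq',
    if_pos (Finset.mem_univ _), if_pos (Finset.mem_univ _)] at h2
  omega

/-- **One more point of small multiplicity.** -/
theorem indep_one (hP : AlgebraicIndependent ℚ (fun ij : Fin n × Fin 2 => P ij.1 ij.2))
    (hκ : ∑ i, κ i = k) (hd : ∀ i, 1 ≤ κ i → m i ≤ d)
    (hne : 1 ≤ finrank K (forms (low m κ) P d)) {S : Finset (Fin n)} {t : Fin n} (ht : t ∈ S)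
    (hdt : m t ≤ d) {a : Fin n} (ha : a ∉ S) (hma : m a ≤ k + 1) :
    finrank K (forms (res m (insert a S)) P (d + k)) + (m a + 1).choose 2 ≤
      finrank K (forms (res m S) P (d + k)) := by
  have hta : t ≠ a := fun h => ha (h ▸ ht)
  have hres : ∀ i, res m S i ≤ m i := by
    intro i
    unfold res
    split_ifs
    · exact le_rfl
    · exact Nat.zero_le _
  have h1 := jets (d := d) (q := a) hP k (res m S) (mv κ a t) (res_not ha)
    (by unfold mv; rw [if_pos rfl]) (by rw [sum_mv hta, hκ])
    (fun i hi => by
      refine (hres i).trans ?_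
      unfold mv at hi
      split_ifs at hi with h1 h2
      · omega
      · rw [h2]
        exact hdt
      · exact hd i hi) (by
      refine hne.trans (Submodule.finrank_mono (forms_le fun i => ?_))
      unfold low
      by_cases h2 : i = a
      · subst h2
        rw [res_not ha]
        omega
      · have h3 := hres i
        unfold mv
        rw [if_neg h2]
        split_ifs with h4
        · subst h4
          omega
        · omega)
  obtain ⟨r, hr⟩ : ∃ r, k + 1 = m a + r := ⟨k + 1 - m a, by omega⟩
  have h2 := update_le_update (P := P) (d := d + k) (q := a) (w := res m S) (μ := m a) r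
  rw [← hr] at h2
  rw [res_insert ha]
  have e : k + 1 + 1 = k + 2 := rfl
  rw [e] at h2
  omega

/-- **Adding points of small multiplicity.** -/
theorem indep_add (hP : AlgebraicIndependent ℚ (fun ij : Fin n × Fin 2 => P ij.1 ij.2))
    (hκ : ∑ i, κ i = k) (hd : ∀ i, 1 ≤ κ i → m i ≤ d)
    (hne : 1 ≤ finrank K (forms (low m κ) P d))
    {T : Finset (Fin n)} {t : Fin n} (ht : t ∈ T) (hdt : m t ≤ d) (hm : ∀ i, i ∉ T → m i ≤ k + 1)
    (S : Finset (Fin n)) : Disjoint S T →
    finrank K (forms (res m (T ∪ S)) P (d + k)) + ∑ i ∈ S, (m i + 1).choose 2 ≤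
      finrank K (forms (res m T) P (d + k)) := by
  classical
  induction S using Finset.induction_on with
  | empty =>
    intro _
    rw [Finset.union_empty, Finset.sum_empty, Nat.add_zero]
  | insert a S ha ih =>
    intro hdis
    rw [Finset.disjoint_insert_left] at hdis
    have h1 := ih hdis.2
    have h2 : a ∉ T ∪ S := by
      rw [Finset.mem_union]
      rintro (h | h)
      · exact hdis.1 h
      · exact ha h
    have h3 := indep_one (d := d) hP hκ hd hne (S := T ∪ S)
      (Finset.mem_union_left S ht) hdt h2 (hm a hdis.1)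
    rw [Finset.union_insert, Finset.sum_insert ha]
    omega

end gen

variable {s : ℕ} {m κ : Fin s → ℕ} {d k : ℕ}

/-- **Theorem G.** -/
theorem gd_pencils (hκ : ∑ i, κ i = k) (hd : ∀ i, 1 ≤ κ i → m i ≤ d)
    (hne : 1 ≤ gd (low m κ) d) {T : Finset (Fin s)} {t : Fin s} (ht : t ∈ T) (hdt : m t ≤ d)
    (hm : ∀ i, i ∉ T → m i ≤ k + 1)
    (hbase : gd (res m T) (d + k) + ∑ i ∈ T, (m i + 1).choose 2 = (d + k + 2).choose 2) :
    gd m (d + k) + ∑ i, (m i + 1).choose 2 = (d + k + 2).choose 2 := by
  classical
  have hP := gpt_ind s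
  have h1 := indep_add (d := d) hP hκ hd (by rwa [finrank_gen hP]) ht hdt hm (Finset.univ \ T)
    Finset.sdiff_disjoint
  rw [Finset.union_sdiff_of_subset (Finset.subset_univ T), finrank_gen hP, finrank_gen hP,
    res_univ] at h1
  have h2 := gd_ge (m := m) (d := d + k)
  have h3 := Finset.sum_sdiff (Finset.subset_univ T) (f := fun i => (m i + 1).choose 2)
  omega

end Pool.Agent.H55.PB
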