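import Pool.Agent.H55.PB.Split

set_option autoImplicit false
set_option linter.unusedSectionVars false

/-!
# The multiplicity at a base point is exact, also along a general line
-/

namespace Pool.Agent.H55.PB

open MvPolynomial Module Pool.Agent.W609.CR Pool.Agent.TH167.SH Pool.Agent.H248R5
  Pool.Agent.H248R6 Pool.Agent.K4H28.SP

variable {K : Type} [Field K] [CharZero K] {n : ℕ}
variable {P : Fin n → Fin 2 → K} {d : ℕ} {o q : Fin n} {w w' : Fin n → ℕ}

theorem pderiv_dG (D : Derivation ℚ K K) (b : Fin 2) (f : MvPolynomial (Fin 2) K) :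
    pderiv b (dG D f) = dG D (pderiv b f) := by
  ext s
  rw [coeff_pderiv, coeff_dG, coeff_dG, coeff_pderiv]
  have h : D ((s b : K) + 1) = 0 := by
    rw [map_add, D.map_natCast, D.map_one_eq_zero, add_zero]
  rw [Derivation.leibniz, h, smul_zero, zero_add, smul_eq_mul, mul_comm]

/-- A space of polynomials stable under the derivations which vanishes at a generic vector. -/
theorem gen_eval {v : Fin 2 → K} {D : Fin 2 → Derivation ℚ K K}
    (hD : ∀ b c, D b (v c) = if c = b then 1 else 0) : ∀ (N : ℕ)
    (V : Submodule K (MvPolynomial (Fin 2) K)),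
    (∀ f ∈ V, ∀ s : Fin 2 →₀ ℕ, N < s.degree → coeff s f = 0) →
    (∀ f ∈ V, ∀ b, dG (D b) f ∈ V) → (∀ f ∈ V, eval v f = 0) → ∀ f ∈ V, f = 0 := by
  classical
  have key : ∀ (V : Submodule K (MvPolynomial (Fin 2) K)), (∀ f ∈ V, ∀ b, dG (D b) f ∈ V) →
      (∀ f ∈ V, eval v f = 0) → ∀ f ∈ V, ∀ b, eval v (pderiv b f) = 0 := by
    intro V h1 h2 f hf b
    have h3 := der_eval (D b) v f
    rw [h2 f hf, map_zero, h2 _ (h1 f hf b), zero_add, Finset.sum_eq_single b] at h3
    · rw [hD, if_pos rfl, mul_one] at h3
      exact h3.symm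
    · intro c _ hc
      rw [hD, if_neg hc, mul_zero]
    · intro h
      exact absurd (Finset.mem_univ _) h
  have fin : ∀ (V : Submodule K (MvPolynomial (Fin 2) K)), (∀ f ∈ V, eval v f = 0) →
      ∀ f ∈ V, (∀ b, pderiv b f = 0) → f = 0 := by
    intro V h2 f hf h3
    have h4 : f = C (coeff 0 f) := by
      ext s
      rw [coeff_C]
      split_ifs with hs
      · rw [← hs]
      · obtain ⟨b, hb⟩ : ∃ b, s b ≠ 0 := by
          by_contra hcon
          push Not at hcon
          exact hs (Finsupp.ext hcon).symm
        have h5 := congrArg (coeff (s - Finsupp.single b 1)) (h3 b)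
        rw [coeff_pderiv, coeff_zero] at h5
        have h6 : s - Finsupp.single b 1 + Finsupp.single b 1 = s := by
          refine tsub_add_cancel_of_le ?_
          rw [Finsupp.single_le_iff]
          omega
        rw [h6] at h5
        rcases mul_eq_zero.1 h5 with h7 | h7
        · exact h7
        · exfalso
          exact Nat.cast_add_one_ne_zero _ h7
    have h5 := h2 f hf
    rw [h4, eval_C] at h5
    rw [h4, h5, C_0]
  intro N
  induction N with
  | zero =>
    intro V h0 h1 h2 f hf
    refine fin V h2 f hf fun b => ?_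
    ext s
    rw [coeff_pderiv, h0 f hf, zero_mul, coeff_zero]
    rw [map_add, Finsupp.degree_single]
    omega
  | succ N ih =>
    intro V h0 h1 h2 f hf
    refine fin V h2 f hf fun b => ?_
    refine ih (V.map ((pderiv b : Derivation K (MvPolynomial (Fin 2) K)
      (MvPolynomial (Fin 2) K)) : MvPolynomial (Fin 2) K →ₗ[K] MvPolynomial (Fin 2) K))
      ?_ ?_ ?_ (pderiv b f) ⟨f, hf, rfl⟩
    · rintro _ ⟨g, hg, rfl⟩ s hs
      change coeff s (pderiv b g) = 0
      rw [coeff_pderiv, h0 g hg, zero_mul]
      rw [map_add, Finsupp.degree_single]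
      omega
    · rintro _ ⟨g, hg, rfl⟩ c
      exact ⟨dG (D c) g, h1 g hg c, pderiv_dG _ _ _⟩
    · rintro _ ⟨g, hg, rfl⟩
      exact key V h1 h2 g hg b

theorem coeff_sig (v : Fin 2 → K) (m : ℕ) (f : MvPolynomial (Fin 2) K) :
    (sig v Polynomial.X f).coeff m = eval v (homogeneousComponent m f) := by
  classical
  induction f using MvPolynomial.induction_on' with
  | monomial s c =>
    have h1 : sig v Polynomial.X (monomial s c) =
        Polynomial.C (c * (v 0 ^ s 0 * v 1 ^ s 1)) * Polynomial.X ^ (s 0 + s 1) := by
      rw [monomial_eq, map_mul, sig_C, Finsupp.prod_fintype _ _ (fun i => by simp),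
        Fin.prod_univ_two, map_mul, map_pow, map_pow, sig_X, sig_X]
      simp only [Polynomial.C_mul, Polynomial.C_pow]
      ring
    have h2 : s.degree = s 0 + s 1 := by
      rw [Finsupp.degree_eq_sum, Fin.sum_univ_two]
    rw [h1, Polynomial.coeff_C_mul, Polynomial.coeff_X_pow]
    by_cases h : m = s 0 + s 1
    · have h3 : homogeneousComponent m (monomial s c) = monomial s c := by
        ext t
        rw [coeff_homogeneousComponent, coeff_monomial]
        split_ifs with h4 h5 h6
        · rfl
        · rfl
        · exfalso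
          apply h4
          rw [← h6]
          omega
        · rfl
      rw [if_pos h, h3, mul_one, eval_monomial, Finsupp.prod_fintype _ _ (fun i => by simp),
        Fin.prod_univ_two]
    · have h3 : homogeneousComponent m (monomial s c) = 0 := by
        ext t
        rw [coeff_homogeneousComponent, coeff_monomial, coeff_zero]
        split_ifs with h4 h5
        · exfalso
          rw [← h5] at h4
          omega
        · rfl
        · rfl
      rw [if_neg h, h3, mul_zero, map_zero]
  | add f g hf hg => rw [map_add, Polynomial.coeff_add, hf, hg, map_add, map_add]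

theorem forms_dG_stable {D : Derivation ℚ K K} (hD : ∀ i, w i ≠ 0 → ∀ b, D (P i b) = 0)
    {f : MvPolynomial (Fin 3) K} (hf : f ∈ forms w P d) : dG D f ∈ forms w P d := by
  rw [mem_forms'] at hf ⊢
  refine ⟨dG_homog D hf.1, fun i s hs => ?_⟩
  rw [tau_dG, Finset.sum_eq_zero, sub_zero, coeff_dG, hf.2 i s hs, map_zero]
  intro b _
  rw [hD i (by omega) b, C_0, zero_mul]

/-- The leading forms at a base point are not all zero. -/
theorem lead_ne (hP : AlgebraicIndependent ℚ (fun ij : Fin n × Fin 2 => P ij.1 ij.2)) {k : ℕ}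
    (hM : 1 ≤ finrank K (LL P d q w k)) : finrank K (II P d q w k) ≤ k := by
  by_contra hcon
  have h1 : ∀ r, finrank K (II P d q w (k + r)) = k + r + 1 := by
    intro r
    induction r with
    | zero =>
      have := finrank_II_le (P := P) (d := d) (q := q) (w := w) (k := k)
      simp only [Nat.add_zero]
      omega
    | succ r ih =>
      have h2 := up_II (d := d) (q := q) (w := w) hP (k + r) (by omega)
      have h3 := finrank_II_le (P := P) (d := d) (q := q) (w := w) (k := k + r + 1)
      have h4 : k + (r + 1) = k + r + 1 := rfl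
      rw [h4]
      omega
  have h2 : ∀ r, finrank K (LL P d q w k) = finrank K (LL P d q w (k + r)) := by
    intro r
    induction r with
    | zero => rfl
    | succ r ih =>
      have h3 := finrank_II (P := P) (d := d) (q := q) (w := w) (k := k + r)
      rw [h1 r] at h3
      have h4 : k + (r + 1) = k + r + 1 := rfl
      rw [h4]
      omega
  have h3 := h2 (d + 1)
  rw [LL_big (k := k + (d + 1)) (by omega), finrank_bot] at h3
  omega

/-- The multiplicity at a base point is exact. -/
theorem exists_exact (hP : AlgebraicIndependent ℚ (fun ij : Fin n × Fin 2 => P ij.1 ij.2))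
    (hne : 1 ≤ finrank K (forms w P d)) (o : Fin n) :
    ∃ F ∈ forms w P d, homogeneousComponent (w o) (tau (P o) F) ≠ 0 := by
  by_contra hcon
  push Not at hcon
  have h1 : LL P d o w (w o) = forms w P d := by
    unfold LL
    rw [Function.update_eq_self]
  have h2 := lead_ne (d := d) (q := o) (w := w) (k := w o) hP (by rw [h1]; exact hne)
  have h3 := finrank_II (P := P) (d := d) (q := o) (w := w) (k := w o)
  have h4 : LL P d o w (w o) ≤ LL P d o w (w o + 1) := by
    intro f hf
    rw [mem_LL_succ hf, ldg_eq_zero]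
    intro s hs
    rw [h1] at hf
    have h5 := congrArg (coeff s) (hcon f hf)
    rw [coeff_homogeneousComponent, if_pos hs, coeff_zero] at h5
    exact h5
  have h5 := Submodule.finrank_mono h4
  omega

/-- The multiplicity at a base point is exact along the general line. -/
theorem exists_coeff (hP : AlgebraicIndependent ℚ (fun ij : Fin n × Fin 2 => P ij.1 ij.2))
    (hoq : o ≠ q) (hq : w q = 0) (hne : 1 ≤ finrank K (forms w P d)) :
    ∃ F ∈ forms w P d, (rho (P o) (P q) F).coeff (w o) ≠ 0 := by
  classical
  by_contra hcon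
  push Not at hcon
  choose D hD using fun b : Fin 2 => exists_der_val hP
    (fun i c => if i = q ∧ c = b then 1 else 0)
  obtain ⟨F, hF, hF0⟩ := exists_exact hP hne o
  have hv : ∀ b c, D b ((fun j => P q j - P o j) c) = if c = b then 1 else 0 := by
    intro b c
    change D b (P q c - P o c) = _
    rw [map_sub, hD, hD, if_neg (fun h : o = q ∧ c = b => hoq h.1), sub_zero]
    by_cases h : c = b
    · rw [if_pos ⟨rfl, h⟩, if_pos h]
    · rw [if_neg (fun h' : q = q ∧ c = b => h h'.2), if_neg h]
  apply hF0
  refine gen_eval hv (w o) ((forms w P d).map ((homogeneousComponent (w o)).comp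
    (tau (P o)).toLinearMap)) ?_ ?_ ?_ _ ⟨F, hF, rfl⟩
  · rintro _ ⟨G, hG, rfl⟩ s hs
    change coeff s (homogeneousComponent (w o) (tau (P o) G)) = 0
    rw [coeff_homogeneousComponent, if_neg (by omega)]
  · rintro _ ⟨G, hG, rfl⟩ b
    refine ⟨dG (D b) G, forms_dG_stable (fun i hi c => ?_) hG, ?_⟩
    · rw [hD, if_neg]
      rintro ⟨rfl, -⟩
      exact hi hq
    · change homogeneousComponent (w o) (tau (P o) (dG (D b) G)) =
        dG (D b) (homogeneousComponent (w o) (tau (P o) G))
      rw [tau_dG, Finset.sum_eq_zero, sub_zero, hc_dG]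
      intro c _
      rw [hD, if_neg (fun h : o = q ∧ c = b => hoq h.1), C_0, zero_mul]
  · rintro _ ⟨G, hG, rfl⟩
    change eval _ (homogeneousComponent (w o) (tau (P o) G)) = 0
    rw [← coeff_sig, ← rho_eq_left]
    exact hcon G hG

end Pool.Agent.H55.PB
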