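import Pool.Agent.H55.PB.Chain

set_option autoImplicit false
set_option linter.unusedSectionVars false

/-!
# The family of the systems `D + j (H - E)`
-/

namespace Pool.Agent.H55.PB

open MvPolynomial Module Pool.Agent.W609.CR Pool.Agent.TH167.SH Pool.Agent.H248R5
  Pool.Agent.H248R6 Pool.Agent.K4H28.SP

variable {s : ℕ} {m κ : Fin s → ℕ} {d k e b : ℕ} {p : Fin s}

/-- The dimension of the restriction to a general line through the point with index `p`. -/
noncomputable def rr (m : Fin s → ℕ) (d : ℕ) (p : Fin s) : ℕ :=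
  finrank (PtF (s + 1)) (RR (gpt (s + 1)) d p.succ 0 (ext0 m))

theorem dec_ext0 : dec (ext0 m) p.succ = ext0 (dec m p) := by
  funext i
  refine Fin.cases ?_ (fun j => ?_) i
  · rw [dec_of_ne (Fin.succ_ne_zero p).symm]
    rfl
  · by_cases h : j = p
    · subst h
      rw [dec_self]
      change m j - 1 = dec m j j
      rw [dec_self]
    · rw [dec_of_ne (fun h' => h (Fin.succ_injective _ h'))]
      change m j = dec m p j
      rw [dec_of_ne h]

theorem gd_split : gd m (d + 1) = rr m (d + 1) p + gd (dec m p) d := by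
  have h1 := finrank_split (P := gpt (s + 1)) (d := d) (w := ext0 m) (gpt_ind (s + 1))
    (Fin.succ_ne_zero p) rfl
  rw [dec_ext0, gd_ext0, gd_ext0] at h1
  exact h1

theorem rr_grow (hne : 1 ≤ gd m (d + 1)) : rr (dec m p) d p + 1 ≤ rr m (d + 1) p ∨
    d + 1 - m p + 1 ≤ rr m (d + 1) p := by
  have h1 := grow (P := gpt (s + 1)) (d := d) (w := ext0 m) (gpt_ind (s + 1))
    (Fin.succ_ne_zero p) rfl (by rwa [gd_ext0])
  rw [dec_ext0] at h1
  exact h1

/-- The restrictions are multiples of a power of `X`. -/
theorem rr_le (hd : m p ≤ d) : rr m d p ≤ d - m p + 1 := by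
  have h1 : RR (gpt (s + 1)) d p.succ 0 (ext0 m) ≤ ml (Polynomial.X ^ m p) (d - m p + 1) := by
    intro f hf
    have h2 := RR_le hf
    rw [mem_RR] at hf
    obtain ⟨F, hF, rfl⟩ := hf
    obtain ⟨g, hg⟩ := rho_dvd_left (a := gpt (s + 1) p.succ) (b := gpt (s + 1) 0)
      ((mem_forms.1 hF).2 p.succ)
    have e1 : ext0 m p.succ = m p := rfl
    rw [e1] at hg
    rw [hg] at h2 ⊢
    rw [mem_ml]
    by_cases hg0 : g = 0
    · refine ⟨0, ?_, ?_⟩
      · rw [Polynomial.degree_zero]
        exact WithBot.bot_lt_coe _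
      · rw [hg0]
    · refine ⟨g, ?_, rfl⟩
      rw [Polynomial.mem_degreeLT, Polynomial.degree_mul, Polynomial.degree_X_pow,
        Polynomial.degree_eq_natDegree hg0] at h2
      rw [Polynomial.degree_eq_natDegree hg0]
      have h3 : m p + g.natDegree < d + 1 := by exact_mod_cast h2
      exact_mod_cast (by omega : g.natDegree < d - m p + 1)
  have h2 := Submodule.finrank_mono h1
  rwa [finrank_ml (pow_ne_zero _ Polynomial.X_ne_zero)] at h2

/-- The system of degree `j` with the multiplicity `j - e` at the point with index `p`. -/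
def fam (m : Fin s → ℕ) (p : Fin s) (e j : ℕ) : Fin s → ℕ := Function.update m p (j - e)

theorem fam_self : fam m p e d p = d - e := Function.update_self _ _ _

theorem fam_of_ne {i : Fin s} (h : i ≠ p) : fam m p e d i = m i := Function.update_of_ne h _ _

theorem dec_fam {j : ℕ} : dec (fam m p e (j + 1)) p = fam m p e j := by
  funext i
  by_cases h : i = p
  · subst h
    rw [dec_self, fam_self, fam_self]
    omega
  · rw [dec_of_ne h, fam_of_ne h, fam_of_ne h]

theorem fam_eq (h : m p + e = d) : fam m p e d = m := by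
  unfold fam
  have h1 : d - e = m p := by omega
  rw [h1, Function.update_eq_self]

/-- The dimension in the family. -/
noncomputable def GG (m : Fin s → ℕ) (p : Fin s) (e j : ℕ) : ℕ := gd (fam m p e j) j

/-- The first difference in the family. -/
noncomputable def rg (m : Fin s → ℕ) (p : Fin s) (e j : ℕ) : ℕ := rr (fam m p e j) j p

theorem GG_succ (j : ℕ) : GG m p e (j + 1) = rg m p e (j + 1) + GG m p e j := by
  unfold GG rg
  rw [gd_split (p := p), dec_fam]

theorem rg_le (j : ℕ) : rg m p e j ≤ e + 1 := by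
  have h1 := rr_le (m := fam m p e j) (d := j) (p := p) (by
    rw [fam_self]
    exact Nat.sub_le _ _)
  rw [fam_self] at h1
  unfold rg
  omega

theorem rg_grow {j : ℕ} (h : 1 ≤ GG m p e (j + 1)) : rg m p e j + 1 ≤ rg m p e (j + 1) ∨
    e + 1 ≤ rg m p e (j + 1) := by
  have h1 := rr_grow (p := p) h
  rw [dec_fam, fam_self] at h1
  unfold rg
  rcases h1 with h1 | h1
  · exact Or.inl h1
  · rcases Nat.lt_or_ge (j + 1) e with h2 | h2
    · left
      have h3 := rr_le (m := fam m p e j) (d := j) (p := p) (by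
        rw [fam_self]
        exact Nat.sub_le _ _)
      rw [fam_self] at h3
      omega
    · right
      omega

/-- The number of the conditions in the family. -/
def cc (m : Fin s → ℕ) (p : Fin s) (e j : ℕ) : ℕ := ∑ i, (fam m p e j i + 1).choose 2

theorem cc_succ {j : ℕ} (h : e ≤ j + 1) : cc m p e (j + 1) = cc m p e j + (j + 1 - e) := by
  classical
  unfold cc
  rw [← Finset.add_sum_erase _ _ (Finset.mem_univ p), ← Finset.add_sum_erase
    (a := p) _ (fun i => (fam m p e j i + 1).choose 2) (Finset.mem_univ p), fam_self, fam_self]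
  have h1 : ∑ i ∈ Finset.univ.erase p, (fam m p e (j + 1) i + 1).choose 2 =
      ∑ i ∈ Finset.univ.erase p, (fam m p e j i + 1).choose 2 :=
    Finset.sum_congr rfl fun i hi => by
      rw [fam_of_ne (Finset.mem_erase.1 hi).1, fam_of_ne (Finset.mem_erase.1 hi).1]
  rw [h1]
  rcases Nat.eq_or_lt_of_le h with h2 | h2
  · have e1 : j + 1 - e = 0 := by omega
    have e2 : j - e = 0 := by omega
    rw [e1, e2]
    omega
  · have e1 : j + 1 - e = j - e + 1 := by omega
    rw [e1]
    have h3 : (j - e + 1 + 1).choose 2 = (j - e + 1).choose 1 + (j - e + 1).choose 2 :=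
      Nat.choose_succ_succ' (j - e + 1) 1
    rw [Nat.choose_one_right] at h3
    omega

/-- The relation between the superabundances. -/
theorem GG_cc {j : ℕ} (h : e ≤ j + 1) : GG m p e (j + 1) + cc m p e (j + 1) +
    (j + 2).choose 2 + (e + 1) = GG m p e j + cc m p e j + (j + 1 + 2).choose 2 +
      rg m p e (j + 1) := by
  have h1 := GG_succ (m := m) (p := p) (e := e) j
  have h2 := cc_succ (m := m) (p := p) (e := e) h
  have h3 : (j + 1 + 2).choose 2 = (j + 2).choose 1 + (j + 2).choose 2 :=
    Nat.choose_succ_succ' (j + 2) 1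
  rw [Nat.choose_one_right] at h3
  omega

end Pool.Agent.H55.PB
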