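import Pool.Agent.H55.PB.Step

set_option autoImplicit false
set_option linter.unusedSectionVars false

/-!
# The restrictions to the line grow if the line is added
-/

namespace Pool.Agent.H55.PB

open MvPolynomial Module Pool.Agent.W609.CR Pool.Agent.TH167.SH Pool.Agent.H248R5
  Pool.Agent.H248R6 Pool.Agent.K4H28.SP

variable {K : Type} [Field K] [CharZero K] {n : ℕ}
variable {P : Fin n → Fin 2 → K} {d : ℕ} {o q : Fin n} {w w' : Fin n → ℕ}

/-- The polynomials of order at least `r` at the point `g = 0`. -/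
def ord (g : Polynomial K) (r : ℕ) : Submodule K (Polynomial K) where
  carrier := {f | g ^ r ∣ f}
  add_mem' := fun ha hb => dvd_add ha hb
  zero_mem' := dvd_zero _
  smul_mem' := fun c x hx => by
    change g ^ r ∣ c • x
    rw [Polynomial.smul_eq_C_mul]
    exact Dvd.dvd.mul_left hx _

theorem mem_ord {g f : Polynomial K} {r : ℕ} : f ∈ ord g r ↔ g ^ r ∣ f := Iff.rfl

theorem ord_succ_le {g : Polynomial K} {r : ℕ} : ord g (r + 1) ≤ ord g r := by
  intro f hf
  rw [mem_ord] at hf ⊢
  exact (pow_dvd_pow g (Nat.le_succ r)).trans hf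

/-- A space with elements of many orders has a large dimension. -/
theorem order_family (g : Polynomial K) : ∀ (k m : ℕ) (U : Submodule K (Polynomial K))
    [FiniteDimensional K U], (∀ r < k, ∃ f ∈ U, g ^ (m + r) ∣ f ∧ ¬ g ^ (m + r + 1) ∣ f) →
    k ≤ finrank K U := by
  intro k
  induction k with
  | zero => intros; exact Nat.zero_le _
  | succ k ih =>
    intro m U _ h
    have : FiniteDimensional K ↥(U ⊓ ord g (m + 1)) :=
      Submodule.finiteDimensional_of_le inf_le_left
    have h1 := ih (m + 1) (U ⊓ ord g (m + 1)) (fun r hr => by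
      obtain ⟨f, hf, h2, h3⟩ := h (r + 1) (by omega)
      have e1 : m + 1 + r = m + (r + 1) := by omega
      refine ⟨f, ⟨hf, ?_⟩, by rwa [e1], by rwa [e1]⟩
      rw [SetLike.mem_coe, mem_ord]
      exact (pow_dvd_pow g (by omega)).trans h2)
    have h2 : U ⊓ ord g (m + 1) < U := by
      refine lt_of_le_of_ne inf_le_left fun h3 => ?_
      obtain ⟨f, hf, -, h4⟩ := h 0 (Nat.succ_pos k)
      rw [← h3] at hf
      exact h4 hf.2
    have h3 := Submodule.finrank_lt_finrank_of_lt h2
    omega

/-- The operator `g ↦ X (d g - X g')`. -/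
noncomputable def TT (d : ℕ) (g : Polynomial K) : Polynomial K :=
  Polynomial.X * (Polynomial.C (d : K) * g - Polynomial.X * Polynomial.derivative g)

theorem coeff_TT (d : ℕ) (g : Polynomial K) (j : ℕ) :
    (TT d g).coeff (j + 1) = ((d : K) - j) * g.coeff j := by
  unfold TT
  rw [Polynomial.coeff_X_mul, Polynomial.coeff_sub, Polynomial.coeff_C_mul]
  cases j with
  | zero =>
    rw [Polynomial.coeff_X_mul_zero]
    push_cast
    ring
  | succ j =>
    rw [Polynomial.coeff_X_mul, Polynomial.coeff_derivative]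
    push_cast
    ring

theorem coeff_TT_zero (d : ℕ) (g : Polynomial K) : (TT d g).coeff 0 = 0 := by
  unfold TT
  rw [Polynomial.coeff_X_mul_zero]

/-- A space stable under the operator. -/
theorem finrank_TT {U : Submodule K (Polynomial K)} [FiniteDimensional K U] {d m : ℕ}
    (hm : m ≤ d) (hU : ∀ g ∈ U, TT d g ∈ U) {g : Polynomial K} (hg : g ∈ U)
    (h1 : Polynomial.X ^ m ∣ g) (h2 : g.coeff m ≠ 0) : d - m + 1 ≤ finrank K U := by
  have key : ∀ r, r ≤ d - m → ∃ f ∈ U, Polynomial.X ^ (m + r) ∣ f ∧ f.coeff (m + r) ≠ 0 := by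
    intro r
    induction r with
    | zero => intro _; exact ⟨g, hg, h1, h2⟩
    | succ r ih =>
      intro hr
      obtain ⟨f, hf, h3, h4⟩ := ih (by omega)
      refine ⟨TT d f, hU f hf, ?_, ?_⟩
      · rw [Polynomial.X_pow_dvd_iff] at h3 ⊢
        intro j hj
        cases j with
        | zero => exact coeff_TT_zero _ _
        | succ j => rw [coeff_TT, h3 j (by omega), mul_zero]
      · have e : m + (r + 1) = (m + r) + 1 := rfl
        rw [e, coeff_TT]
        refine mul_ne_zero ?_ h4
        have h5 : m + r < d := by omega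
        have h6 : (((m + r : ℕ)) : K) ≠ (d : K) := by
          intro h7
          have := Nat.cast_injective (R := K) h7
          omega
        exact sub_ne_zero.2 (fun h7 => h6 h7.symm)
  refine order_family Polynomial.X (d - m + 1) m U fun r hr => ?_
  obtain ⟨f, hf, h3, h4⟩ := key r (by omega)
  refine ⟨f, hf, h3, fun h5 => h4 ?_⟩
  rw [Polynomial.X_pow_dvd_iff] at h5
  exact h5 _ (by omega)

/-- The line through `P o` and another point meets the general line in `P o` only. -/
theorem ln_third (hP : AlgebraicIndependent ℚ (fun ij : Fin n × Fin 2 => P ij.1 ij.2))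
    (hoq : o ≠ q) {i : Fin n} (hio : i ≠ o) (hiq : i ≠ q) :
    ∃ c : K, c ≠ 0 ∧ rho (P o) (P q) (ln (P o) (P i)) = Polynomial.C c * Polynomial.X := by
  refine ⟨(P o 1 - P i 1) * (P q 0 - P o 0) + (P i 0 - P o 0) * (P q 1 - P o 1), ?_, ?_⟩
  · have h1 := (exc_line hP hio.symm).ord q
    rw [if_neg (by rintro (h | h); exacts [hoq h.symm, hiq h.symm])] at h1
    intro h2
    apply h1.2
    rw [Nat.zero_add]
    rw [van_one]
    unfold ln
    simp only [map_add, map_mul, eval_C, eval_X]
    have e0 : aff (P q) 0 = P q 0 := rfl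
    have e1 : aff (P q) 1 = P q 1 := rfl
    have e2 : aff (P q) 2 = 1 := rfl
    rw [e0, e1, e2, ← h2]
    ring
  · unfold ln
    rw [map_add, map_add, map_mul, map_mul, map_mul, rho_C, rho_C, rho_C, rho_X0, rho_X1,
      rho_X2]
    simp only [Polynomial.C_add, Polynomial.C_sub, Polynomial.C_mul]
    ring

end Pool.Agent.H55.PB
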