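import Pool.Agent.H55.PB.Grow
import Pool.Graph.R_pool_sql_team_seeded_c8625f6e.K4H28.SP.Sym2

set_option autoImplicit false
set_option linter.unusedSectionVars false

/-!
# The restrictions to the line grow if the line is added: the step
-/

namespace Pool.Agent.H55.PB

open MvPolynomial Module Pool.Agent.W609.CR Pool.Agent.TH167.SH Pool.Agent.H248R5
  Pool.Agent.H248R6 Pool.Agent.K4H28.SP

variable {K : Type} [Field K] [CharZero K] {n : ℕ}
variable {P : Fin n → Fin 2 → K} {d : ℕ} {o q : Fin n} {w w' : Fin n → ℕ}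

/-- Multiples of `X`. -/
noncomputable def mX (U : Submodule K (Polynomial K)) : Submodule K (Polynomial K) :=
  U.map (LinearMap.mulLeft K Polynomial.X)

theorem mem_mX {U : Submodule K (Polynomial K)} {g : Polynomial K} :
    g ∈ mX U ↔ ∃ f ∈ U, Polynomial.X * f = g := Iff.rfl

theorem finrank_mX (U : Submodule K (Polynomial K)) : finrank K (mX U) = finrank K U := by
  have hinj : Function.Injective (LinearMap.mulLeft K (Polynomial.X : Polynomial K)) := by
    intro a b hab
    rw [LinearMap.mulLeft_apply, LinearMap.mulLeft_apply] at hab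
    exact mul_left_cancel₀ Polynomial.X_ne_zero hab
  exact (LinearEquiv.finrank_eq (Submodule.equivMapOfInjective _ hinj U)).symm

instance (U : Submodule K (Polynomial K)) [FiniteDimensional K U] :
    FiniteDimensional K (mX U) := by
  unfold mX
  infer_instance

theorem C_mul_mem {U : Submodule K (Polynomial K)} {c : K} (hc : c ≠ 0) {g : Polynomial K}
    (h : Polynomial.C c * g ∈ U) : g ∈ U := by
  have h1 := U.smul_mem c⁻¹ h
  rwa [← Polynomial.smul_eq_C_mul, smul_smul, inv_mul_cancel₀ hc, one_smul] at h1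

theorem mX_RR_le (hP : AlgebraicIndependent ℚ (fun ij : Fin n × Fin 2 => P ij.1 ij.2))
    (hoq : o ≠ q) : mX (RR P d o q (dec w o)) ≤ RR P (d + 1) o q w := by
  intro f hf
  rw [mem_mX] at hf
  obtain ⟨g, hg, rfl⟩ := hf
  rw [mem_RR] at hg
  obtain ⟨G, hG, rfl⟩ := hg
  refine C_mul_mem (sub_ne_zero.2 (pt_ne hP hoq.symm 0 0)) ?_
  rw [mem_RR]
  refine ⟨la (P o) * G, la_mul_mem hG, ?_⟩
  rw [map_mul, rho_la, mul_assoc]

/-- The vector field which moves the points away from the point `P o`. -/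
theorem forms_stable {Δ : Derivation ℚ K K}
    (hΔ : ∀ j, j ≠ q → ∀ b, Δ (P j b) = (P j 0 - P o 0) * (P o b - P j b)) (hq : w q = 0)
    {F : MvPolynomial (Fin 3) K} (hF : F ∈ forms w P (d + 1)) :
    la (P o) * dv (P o) F + dG Δ F ∈ forms w P (d + 1) := by
  have hF' := hF
  rw [mem_forms] at hF ⊢
  refine ⟨?_, fun j => ?_⟩
  · refine IsHomogeneous.add ?_ (dG_homog Δ hF.1)
    rw [add_comm]
    refine (la_hom _).mul ?_
    have hp : ∀ i : Fin 3, (pderiv i F).IsHomogeneous d := fun i => hF.1.pderiv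
    unfold dv
    refine IsHomogeneous.add (IsHomogeneous.add ?_ ?_) (hp 2)
    · have := (isHomogeneous_C (Fin 3) (P o 0)).mul (hp 0)
      rwa [Nat.zero_add] at this
    · have := (isHomogeneous_C (Fin 3) (P o 1)).mul (hp 1)
      rwa [Nat.zero_add] at this
  · by_cases hjq : j = q
    · subst hjq
      rw [hq, pow_zero, Ideal.one_eq_top]
      trivial
    have h1 := hF.2 j
    have h2 : tau (P j) (la (P o) * dv (P o) F + dG Δ F) =
        X 0 * pderiv 0 (tau (P j) F) * C (P o 0 - P j 0) +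
        X 0 * pderiv 1 (tau (P j) F) * C (P o 1 - P j 1) +
        (X 0 + C (P j 0 - P o 0)) * (C ((d + 1 : ℕ) : K) * tau (P j) F -
          X 0 * pderiv 0 (tau (P j) F) - X 1 * pderiv 1 (tau (P j) F)) +
        dG Δ (tau (P j) F) := by
      rw [map_add, map_mul, tau_la, tau_dv hF.1, tau_dG, Fin.sum_univ_two, hΔ j hjq 0,
        hΔ j hjq 1]
      simp only [C_mul, C_sub]
      ring
    rw [h2]
    refine Ideal.add_mem _ (Ideal.add_mem _ (Ideal.add_mem _ ?_ ?_) ?_) (dG_mem_pow _ h1)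
    · exact Ideal.mul_mem_right _ _ (X_pd_mem h1 0 0)
    · exact Ideal.mul_mem_right _ _ (X_pd_mem h1 0 1)
    · refine Ideal.mul_mem_left _ _ (Ideal.sub_mem _ (Ideal.sub_mem _ ?_ (X_pd_mem h1 0 0))
        (X_pd_mem h1 1 1))
      exact Ideal.mul_mem_left _ _ h1

/-- **The restrictions to the line grow if the line is added.** -/
theorem grow (hP : AlgebraicIndependent ℚ (fun ij : Fin n × Fin 2 => P ij.1 ij.2))
    (hoq : o ≠ q) (hq : w q = 0) (hne : 1 ≤ finrank K (forms w P (d + 1))) :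
    finrank K (RR P d o q (dec w o)) + 1 ≤ finrank K (RR P (d + 1) o q w) ∨
      d + 1 - w o + 1 ≤ finrank K (RR P (d + 1) o q w) := by
  classical
  by_contra hcon
  push Not at hcon
  obtain ⟨h1, h2⟩ := hcon
  have h3 := mX_RR_le (d := d) (w := w) hP hoq
  have heq : mX (RR P d o q (dec w o)) = RR P (d + 1) o q w := by
    refine Submodule.eq_of_le_of_finrank_le h3 ?_
    rw [finrank_mX]
    omega
  -- the derivations which move one coordinate of one point
  choose D hD using fun ib : Fin n × Fin 2 => exists_der_val hP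
    (fun i c => if i = ib.1 ∧ c = ib.2 then 1 else 0)
  have hmove : ∀ i b, i ≠ o → i ≠ q → ∀ f ∈ RR P (d + 1) o q w,
      dP (D (i, b)) f ∈ RR P (d + 1) o q w := by
    intro i b hio hiq f hf
    rw [← heq, mem_mX] at hf
    obtain ⟨g, hg, rfl⟩ := hf
    rw [mem_RR] at hg
    obtain ⟨G, hG, rfl⟩ := hg
    obtain ⟨c, hc, h4⟩ := ln_third hP hoq hio hiq
    refine C_mul_mem hc ?_
    rw [mem_RR]
    have hDo : ∀ c, D (i, b) (P o c) = 0 := by
      intro c
      rw [hD, if_neg]
      rintro ⟨h, -⟩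
      exact hio h.symm
    have hDq : ∀ c, D (i, b) (P q c) = 0 := by
      intro c
      rw [hD, if_neg]
      rintro ⟨h, -⟩
      exact hiq h.symm
    refine ⟨ln (P o) (P i) * dG (D (i, b)) G, ln_mul_mem hio ?_, ?_⟩
    · refine forms_dG_dec (fun j hj _ c => ?_) hG
      rw [hD, if_neg]
      rintro ⟨h, -⟩
      exact hj h
    · rw [map_mul, h4, rho_dG_fix hDo hDq, dP_mul, dP_X, zero_mul, zero_add, mul_assoc]
  -- the vector field
  let cc : Fin n → Fin 2 → K := fun i b => if i ≠ o ∧ i ≠ q then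
    (P i 0 - P o 0) * (P o b - P i b) else 0
  let Δ : Derivation ℚ K K := ∑ ib : Fin n × Fin 2, cc ib.1 ib.2 • D ib
  have hΔ : ∀ j b, Δ (P j b) = cc j b := by
    intro j b
    change (∑ ib : Fin n × Fin 2, cc ib.1 ib.2 • D ib) (P j b) = cc j b
    rw [der_sum, Finset.sum_eq_single (j, b)]
    · rw [hD, if_pos ⟨rfl, rfl⟩, mul_one]
    · rintro ⟨i, c⟩ _ hx
      rw [hD, if_neg, mul_zero]
      rintro ⟨h4, h5⟩
      apply hx
      rw [h4, h5]
    · intro h
      exact absurd (Finset.mem_univ _) h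
  have hΔ1 : ∀ j, j ≠ q → ∀ b, Δ (P j b) = (P j 0 - P o 0) * (P o b - P j b) := by
    intro j hj b
    rw [hΔ]
    by_cases h4 : j = o
    · subst h4
      simp [cc]
    · exact if_pos ⟨h4, hj⟩
  have hΔo : ∀ b, Δ (P o b) = 0 := by
    intro b
    rw [hΔ]
    exact if_neg (fun h => h.1 rfl)
  have hΔq : ∀ b, Δ (P q b) = 0 := by
    intro b
    rw [hΔ]
    exact if_neg (fun h => h.2 rfl)
  have hdP : ∀ f ∈ RR P (d + 1) o q w, dP Δ f ∈ RR P (d + 1) o q w := by
    intro f hf
    have h4 : dP Δ f = ∑ ib : Fin n × Fin 2, cc ib.1 ib.2 • dP (D ib) f := by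
      ext m
      rw [coeff_dP, Polynomial.finsetSum_coeff]
      change (∑ ib : Fin n × Fin 2, cc ib.1 ib.2 • D ib) _ = _
      rw [der_sum]
      refine Finset.sum_congr rfl fun ib _ => ?_
      rw [Polynomial.coeff_smul, coeff_dP, smul_eq_mul]
    rw [h4]
    refine Submodule.sum_mem _ ?_
    rintro ⟨i, b⟩ _
    by_cases h5 : i ≠ o ∧ i ≠ q
    · exact Submodule.smul_mem _ _ (hmove i b h5.1 h5.2 f hf)
    · have : cc i b = 0 := if_neg h5
      rw [this, zero_smul]
      exact Submodule.zero_mem _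
  have hT : ∀ f ∈ RR P (d + 1) o q w, TT (d + 1) f ∈ RR P (d + 1) o q w := by
    intro f hf
    rw [mem_RR] at hf
    obtain ⟨F, hF, rfl⟩ := hf
    refine C_mul_mem (sub_ne_zero.2 (pt_ne hP hoq.symm 0 0)) ?_
    have h4 : rho (P o) (P q) (la (P o) * dv (P o) F + dG Δ F) ∈ RR P (d + 1) o q w :=
      mem_RR.2 ⟨_, forms_stable hΔ1 hq hF, rfl⟩
    have h5 : dP Δ (rho (P o) (P q) F) ∈ RR P (d + 1) o q w := hdP _ (mem_RR.2 ⟨F, hF, rfl⟩)
    have h6 := Submodule.sub_mem _ h4 h5
    rw [map_add, map_mul, rho_la, rho_dv (mem_forms.1 hF).1, rho_dG_fix hΔo hΔq,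
      add_sub_cancel_right, mul_assoc] at h6
    exact h6
  obtain ⟨F, hF, hFc⟩ := exists_coeff hP hoq hq hne
  have h7 : Polynomial.X ^ w o ∣ rho (P o) (P q) F := rho_dvd_left ((mem_forms.1 hF).2 o)
  have h8 : w o ≤ d + 1 := by
    have h9 := RR_le (d := d + 1) (o := o) (q := q) (w := w) (P := P) (mem_RR.2 ⟨F, hF, rfl⟩)
    by_contra hcon
    apply hFc
    rw [Polynomial.mem_degreeLT] at h9
    exact Polynomial.coeff_eq_zero_of_degree_lt (lt_of_lt_of_le h9 (by
      exact_mod_cast (by omega : d + 1 + 1 ≤ w o)))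
  have h10 := finrank_TT h8 hT (mem_RR.2 ⟨F, hF, rfl⟩) h7 hFc
  omega

end Pool.Agent.H55.PB
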