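import Pool.Agent.H55.PB.Grow2

set_option autoImplicit false
set_option linter.unusedSectionVars false

/-!
# Subtracting pencils of lines: the restriction to a line
-/

namespace Pool.Agent.H55.PB

open MvPolynomial Module Pool.Agent.W609.CR Pool.Agent.TH167.SH Pool.Agent.H248R5
  Pool.Agent.H248R6 Pool.Agent.K4H28.SP

variable {K : Type} [Field K] [CharZero K] {n : ℕ}
variable {P : Fin n → Fin 2 → K} {d : ℕ} {o q : Fin n} {w w' κ : Fin n → ℕ}

/-- The multiplicities of `D - ∑ κ i (H - E i)`. -/
def low (w κ : Fin n → ℕ) : Fin n → ℕ := fun i => w i - κ i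

theorem low_dec {i : Fin n} (h : 1 ≤ κ i) : low (dec w i) (dec κ i) = low w κ := by
  funext j
  unfold low
  by_cases hj : j = i
  · subst hj
    rw [dec_self, dec_self]
    omega
  · rw [dec_of_ne hj, dec_of_ne hj]

theorem sum_dec {i : Fin n} (h : 1 ≤ κ i) : ∑ j, dec κ i j + 1 = ∑ j, κ j := by
  classical
  rw [← Finset.add_sum_erase _ _ (Finset.mem_univ i), ← Finset.add_sum_erase _ κ
    (Finset.mem_univ i), dec_self]
  have : ∑ x ∈ Finset.univ.erase i, dec κ i x = ∑ x ∈ Finset.univ.erase i, κ x :=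
    Finset.sum_congr rfl fun x hx => dec_of_ne (Finset.mem_erase.1 hx).1
  rw [this]
  omega

theorem low_zero (h : ∑ j, κ j = 0) : low w κ = w := by
  funext j
  unfold low
  have : κ j = 0 := (Finset.sum_eq_zero_iff.1 h) j (Finset.mem_univ j)
  rw [this, Nat.sub_zero]

theorem exists_pos_of_sum {k : ℕ} (h : ∑ j, κ j = k + 1) : ∃ i, 1 ≤ κ i := by
  by_contra hcon
  push Not at hcon
  have : ∑ j, κ j = 0 := Finset.sum_eq_zero fun j _ => by
    have := hcon j
    omega
  omega

theorem la_ne (a : Fin 2 → K) : la a ≠ 0 := by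
  intro h
  have h1 := congrArg (eval (![a 0 + 1, 0, 1] : Fin 3 → K)) h
  unfold la at h1
  simp at h1

theorem one_le_finrank {V : Submodule K (MvPolynomial (Fin 3) K)} [FiniteDimensional K V] :
    1 ≤ finrank K V ↔ ∃ f ∈ V, f ≠ 0 := by
  rw [Nat.one_le_iff_ne_zero, Ne, Submodule.finrank_eq_zero, Submodule.eq_bot_iff]
  push Not
  rfl

theorem ne_mul (h : 1 ≤ finrank K (forms (dec w o) P d)) :
    1 ≤ finrank K (forms w P (d + 1)) := by
  rw [one_le_finrank] at h ⊢
  obtain ⟨f, hf, h0⟩ := h
  exact ⟨la (P o) * f, la_mul_mem hf, mul_ne_zero (la_ne _) h0⟩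

theorem ne_low : ∀ (k : ℕ) (w κ : Fin n → ℕ), ∑ j, κ j = k →
    1 ≤ finrank K (forms (low w κ) P d) → 1 ≤ finrank K (forms w P (d + k)) := by
  intro k
  induction k with
  | zero =>
    intro w κ h1 h2
    rwa [low_zero h1] at h2
  | succ k ih =>
    intro w κ h1 h2
    obtain ⟨i, hi⟩ := exists_pos_of_sum h1
    refine ne_mul (o := i) (ih (dec w i) (dec κ i) ?_ ?_)
    · have := sum_dec hi
      omega
    · rwa [low_dec hi]

theorem one_le_finrank_P {V : Submodule K (Polynomial K)} [FiniteDimensional K V] :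
    1 ≤ finrank K V ↔ ∃ f ∈ V, f ≠ 0 := by
  rw [Nat.one_le_iff_ne_zero, Ne, Submodule.finrank_eq_zero, Submodule.eq_bot_iff]
  push Not
  rfl

/-- A nonzero space of polynomials is not stable under multiplication by `X`. -/
theorem add_one_le {U W : Submodule K (Polynomial K)} [FiniteDimensional K U]
    [FiniteDimensional K W] {N : ℕ} (hN : W ≤ Polynomial.degreeLT K N) (h0 : 1 ≤ finrank K U)
    (h1 : U ≤ W) (h2 : mX U ≤ W) : finrank K U + 1 ≤ finrank K W := by
  by_contra hcon
  have h3 : U = W := Submodule.eq_of_le_of_finrank_le h1 (by omega)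
  rw [one_le_finrank_P] at h0
  obtain ⟨f, hf, hf0⟩ := h0
  have h4 : ∀ r, Polynomial.X ^ r * f ∈ W := by
    intro r
    induction r with
    | zero => rw [pow_zero, one_mul]; exact h1 hf
    | succ r ih =>
      rw [pow_succ', mul_assoc]
      rw [← h3] at ih
      exact h2 (mem_mX.2 ⟨_, ih, rfl⟩)
  have h5 := hN (h4 N)
  rw [Polynomial.mem_degreeLT, Polynomial.degree_mul, Polynomial.degree_X_pow,
    Polynomial.degree_eq_natDegree hf0] at h5
  have h6 : N + f.natDegree < N := by exact_mod_cast h5
  omega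

/-- The line through `P q` and another point meets the general line in `P q` only. -/
theorem ln_fourth (hP : AlgebraicIndependent ℚ (fun ij : Fin n × Fin 2 => P ij.1 ij.2))
    (hoq : o ≠ q) {i : Fin n} (hio : i ≠ o) (hiq : i ≠ q) :
    ∃ c : K, c ≠ 0 ∧ rho (P o) (P q) (ln (P q) (P i)) =
      Polynomial.C c * (Polynomial.X - 1) := by
  refine ⟨(P q 1 - P i 1) * (P q 0 - P o 0) + (P i 0 - P q 0) * (P q 1 - P o 1), ?_, ?_⟩
  · have h1 := (exc_line hP hiq.symm).ord o
    rw [if_neg (by rintro (h | h); exacts [hoq h, hio h.symm])] at h1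
    intro h2
    apply h1.2
    rw [Nat.zero_add]
    rw [van_one]
    unfold ln
    simp only [map_add, map_mul, eval_C, eval_X]
    have e0 : aff (P o) 0 = P o 0 := rfl
    have e1 : aff (P o) 1 = P o 1 := rfl
    have e2 : aff (P o) 2 = 1 := rfl
    rw [e0, e1, e2]
    linear_combination -h2
  · unfold ln
    rw [map_add, map_add, map_mul, map_mul, map_mul, rho_C, rho_C, rho_C, rho_X0, rho_X1,
      rho_X2]
    simp only [Polynomial.C_add, Polynomial.C_sub, Polynomial.C_mul]
    ring

/-- **The restriction of the system to a line through one of the points, if pencils can be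
subtracted.** -/
theorem jets_line (hP : AlgebraicIndependent ℚ (fun ij : Fin n × Fin 2 => P ij.1 ij.2))
    (hoq : o ≠ q) : ∀ (k : ℕ) (w κ : Fin n → ℕ), w q = 0 → κ q = 0 → ∑ j, κ j = k → w o ≤ d →
    1 ≤ finrank K (forms (low w κ) P d) → k + 1 ≤ finrank K (RR P (d + k) o q w) := by
  intro k
  induction k with
  | zero =>
    intro w κ hq _ h1 _ h2
    rw [low_zero h1] at h2
    obtain ⟨F, hF, hc⟩ := exists_coeff hP hoq hq h2
    rw [Nat.zero_add, Nat.add_zero, one_le_finrank_P]
    refine ⟨rho (P o) (P q) F, mem_RR.2 ⟨F, hF, rfl⟩, fun h => hc ?_⟩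
    rw [h, Polynomial.coeff_zero]
  | succ k ih =>
    intro w κ hq hκq h1 ho h2
    have hne := ne_low (k + 1) w κ h1 h2
    have key : ∀ i, 1 ≤ κ i → k + 1 ≤ finrank K (RR P (d + k) o q (dec w i)) := by
      intro i hi
      have hiq : i ≠ q := by
        rintro rfl
        omega
      refine ih (dec w i) (dec κ i) ?_ ?_ ?_ ((dec_le o).trans ho) (by rwa [low_dec hi])
      · rw [dec_of_ne hiq.symm, hq]
      · rw [dec_of_ne hiq.symm, hκq]
      · have := sum_dec hi
        omega
    have e : d + (k + 1) = d + k + 1 := rfl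
    rw [e] at hne ⊢
    by_cases hoκ : 1 ≤ κ o
    · have h3 := key o hoκ
      rcases grow hP hoq hq hne with h4 | h4
      · omega
      · omega
    · obtain ⟨i, hi⟩ := exists_pos_of_sum h1
      have hio : i ≠ o := by
        rintro rfl
        exact hoκ hi
      have hiq : i ≠ q := by
        rintro rfl
        omega
      have h3 := key i hi
      obtain ⟨c, hc, h4⟩ := ln_third hP hoq hio hiq
      obtain ⟨c', hc', h5⟩ := ln_fourth hP hoq hio hiq
      have h6 : mX (RR P (d + k) o q (dec w i)) ≤ RR P (d + k + 1) o q w := by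
        intro f hf
        rw [mem_mX] at hf
        obtain ⟨g, hg, rfl⟩ := hf
        rw [mem_RR] at hg
        obtain ⟨G, hG, rfl⟩ := hg
        refine C_mul_mem hc ?_
        rw [mem_RR]
        refine ⟨ln (P o) (P i) * G, ln_mul_mem hio (forms_le (fun j => ?_) hG), ?_⟩
        · by_cases hj : j = i
          · subst hj
            rw [dec_self, dec_self, dec_of_ne hio]
          · rw [dec_of_ne hj, dec_of_ne hj]
            exact dec_le j
        · rw [map_mul, h4, mul_assoc]
      have h7 : RR P (d + k) o q (dec w i) ≤ RR P (d + k + 1) o q w := by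
        intro g hg
        have h8 := h6 (mem_mX.2 ⟨g, hg, rfl⟩)
        rw [mem_RR] at hg
        obtain ⟨G, hG, rfl⟩ := hg
        have h9 : (Polynomial.X - 1) * rho (P o) (P q) G ∈ RR P (d + k + 1) o q w := by
          refine C_mul_mem hc' ?_
          rw [mem_RR]
          refine ⟨ln (P q) (P i) * G, ln_mul_mem hiq (forms_le (fun j => ?_) hG), ?_⟩
          · by_cases hj : j = i
            · subst hj
              rw [dec_self, dec_self, dec_of_ne hiq]
            · rw [dec_of_ne hj, dec_of_ne hj]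
              exact dec_le j
          · rw [map_mul, h5, mul_assoc]
        have h10 := Submodule.sub_mem _ h8 h9
        have e1 : Polynomial.X * rho (P o) (P q) G - (Polynomial.X - 1) * rho (P o) (P q) G =
          rho (P o) (P q) G := by ring
        rwa [e1] at h10
      have h8 := add_one_le RR_le (by omega) h7 h6
      omega

end Pool.Agent.H55.PB
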