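import Pool.Agent.H55.PB.Jets

set_option autoImplicit false
set_option linter.unusedSectionVars false

/-!
# Subtracting pencils of lines: jets at a general point
-/

namespace Pool.Agent.H55.PB

open MvPolynomial Module Pool.Agent.W609.CR Pool.Agent.TH167.SH Pool.Agent.H248R5
  Pool.Agent.H248R6 Pool.Agent.K4H28.SP

variable {K : Type} [Field K] [CharZero K] {n : ℕ}
variable {P : Fin n → Fin 2 → K} {d : ℕ} {o q : Fin n} {w w' κ : Fin n → ℕ}

/-- The operator `g ↦ D g - X g'`. -/
noncomputable def SS (D : Derivation ℚ K K) (g : Polynomial K) : Polynomial K :=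
  dP D g - Polynomial.X * Polynomial.derivative g

theorem dP_Y_pow (D : Derivation ℚ K K) (r : ℕ) :
    dP D ((Polynomial.X - 1 : Polynomial K) ^ r) = 0 := by
  have h1 : dP D (Polynomial.X - 1 : Polynomial K) = 0 := by
    have e : (Polynomial.X - 1 : Polynomial K) = Polynomial.X + Polynomial.C (-1) := by
      rw [Polynomial.C_neg, Polynomial.C_1]
      ring
    rw [e, dP_add, dP_X, dP_C, map_neg, D.map_one_eq_zero]
    simp
  induction r with
  | zero =>
    have := dP_X_pow D 0
    rwa [pow_zero] at this ⊢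
  | succ r ih => rw [pow_succ, dP_mul, ih, h1]; ring

theorem SS_ord (D : Derivation ℚ K K) {g : Polynomial K} {m : ℕ}
    (h1 : (Polynomial.X - 1) ^ (m + 1) ∣ g) (h2 : ¬ (Polynomial.X - 1) ^ (m + 2) ∣ g) :
    (Polynomial.X - 1) ^ m ∣ SS D g ∧ ¬ (Polynomial.X - 1) ^ (m + 1) ∣ SS D g := by
  obtain ⟨h, rfl⟩ := h1
  have hY : (Polynomial.X - 1 : Polynomial K) ≠ 0 := Polynomial.X_sub_C_ne_zero 1
  have h3 : ¬ (Polynomial.X - 1) ∣ h := by
    rintro ⟨h', rfl⟩
    exact h2 ⟨h', by ring⟩
  have h4 : SS D ((Polynomial.X - 1) ^ (m + 1) * h) = (Polynomial.X - 1) ^ m *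
      ((Polynomial.X - 1) * dP D h - Polynomial.X * (Polynomial.C ((m + 1 : ℕ) : K) * h +
        (Polynomial.X - 1) * Polynomial.derivative h)) := by
    have e : Polynomial.derivative ((Polynomial.X - 1 : Polynomial K) ^ (m + 1)) =
        Polynomial.C ((m + 1 : ℕ) : K) * (Polynomial.X - 1) ^ m := by
      rw [Polynomial.derivative_pow_succ, Polynomial.derivative_sub, Polynomial.derivative_X,
        Polynomial.derivative_one]
      push_cast
      ring
    unfold SS
    rw [dP_mul, dP_Y_pow, Polynomial.derivative_mul, e]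
    ring
  rw [h4]
  refine ⟨Dvd.intro _ rfl, fun h5 => ?_⟩
  rw [pow_succ] at h5
  have h6 := (mul_dvd_mul_iff_left (pow_ne_zero m hY)).1 h5
  have hC : (Polynomial.X - 1 : Polynomial K) = Polynomial.X - Polynomial.C 1 := by
    rw [Polynomial.C_1]
  rw [hC, Polynomial.dvd_iff_isRoot, Polynomial.IsRoot.def] at h3 h6
  simp only [Polynomial.eval_sub, Polynomial.eval_mul, Polynomial.eval_add, Polynomial.eval_X,
    Polynomial.eval_C, sub_self, zero_mul, add_zero, one_mul, zero_sub, neg_eq_zero] at h6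
  rcases mul_eq_zero.1 h6 with h7 | h7
  · exact absurd h7 (Nat.cast_ne_zero.2 (Nat.succ_ne_zero m))
  · exact h3 h7

/-- The operator preserves the restrictions of the system to the line. -/
theorem SS_mem {D : Derivation ℚ K K} (hD : ∀ j b, D (P j b) =
    if j = q then P q b - P o b else 0) (hoq : o ≠ q) (hq : w q = 0) {f : Polynomial K}
    (hf : f ∈ RR P d o q w) : SS D f ∈ RR P d o q w := by
  rw [mem_RR] at hf ⊢
  obtain ⟨F, hF, rfl⟩ := hf
  have hDo : ∀ b, D (P o b) = 0 := fun b => by rw [hD, if_neg hoq]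
  have hDq : ∀ b, D (P q b) = P q b - P o b := fun b => by rw [hD, if_pos rfl]
  refine ⟨dG D F, forms_dG_stable (fun i hi b => ?_) hF, ?_⟩
  · rw [hD, if_neg]
    rintro rfl
    exact hi hq
  · have hc0 : (0 : Fin 2).castSucc = (0 : Fin 3) := rfl
    have hc1 : (1 : Fin 2).castSucc = (1 : Fin 3) := rfl
    have h0 : D (P q 0 - P o 0) = P q 0 - P o 0 := by rw [map_sub, hDq, hDo, sub_zero]
    have h1 : D (P q 1 - P o 1) = P q 1 - P o 1 := by rw [map_sub, hDq, hDo, sub_zero]
    unfold SS
    rw [rho_dG, Fin.sum_univ_two, hc0, hc1, rho_X0, rho_X1, dP_add, dP_mul, dP_C, dP_C, dP_X,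
      dP_add, dP_mul, dP_C, dP_C, dP_X, deriv_rho, h0, h1, hDo 0, hDo 1, Polynomial.C_0]
    ring

theorem exists_ord {f : Polynomial K} (hf : f ≠ 0) {r : ℕ} (h : (Polynomial.X - 1) ^ r ∣ f) :
    ∃ s, r ≤ s ∧ (Polynomial.X - 1) ^ s ∣ f ∧ ¬ (Polynomial.X - 1) ^ (s + 1) ∣ f := by
  have hC : (Polynomial.X - 1 : Polynomial K) = Polynomial.X - Polynomial.C 1 := by
    rw [Polynomial.C_1]
  rw [hC] at h ⊢
  refine ⟨f.rootMultiplicity 1, (Polynomial.le_rootMultiplicity_iff hf).2 h,
    Polynomial.pow_rootMultiplicity_dvd f 1, fun h1 => ?_⟩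
  have := (Polynomial.le_rootMultiplicity_iff hf).2 h1
  omega

/-- **The vanishing orders at the general point have no gaps.** -/
theorem ord_one (hP : AlgebraicIndependent ℚ (fun ij : Fin n × Fin 2 => P ij.1 ij.2))
    (hoq : o ≠ q) (hq : w q = 0) : ∀ r : ℕ,
    (∃ f ∈ RR P d o q w ⊓ ord (Polynomial.X - 1) r, f ≠ 0) →
      finrank K ↥(RR P d o q w ⊓ ord (Polynomial.X - 1) r) + r ≤ finrank K (RR P d o q w) := by
  obtain ⟨D, hD⟩ := exists_der_val hP (fun j b => if j = q then P q b - P o b else 0)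
  intro r
  induction r with
  | zero =>
    intro _
    rw [Nat.add_zero]
    exact Submodule.finrank_mono inf_le_left
  | succ r ih =>
    rintro ⟨f, hf, hf0⟩
    have h1 := ih ⟨f, ⟨hf.1, ord_succ_le hf.2⟩, hf0⟩
    have key : ∀ t : ℕ, ∀ g ∈ RR P d o q w, (Polynomial.X - 1) ^ (r + t) ∣ g →
        ¬ (Polynomial.X - 1) ^ (r + t + 1) ∣ g → ∃ g' ∈ RR P d o q w,
          (Polynomial.X - 1) ^ r ∣ g' ∧ ¬ (Polynomial.X - 1) ^ (r + 1) ∣ g' := by
      intro t
      induction t with
      | zero => exact fun g h2 h3 h4 => ⟨g, h2, h3, h4⟩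
      | succ t iht =>
        intro g h2 h3 h4
        obtain ⟨h5, h6⟩ := SS_ord D (m := r + t) h3 h4
        exact iht (SS D g) (SS_mem hD hoq hq h2) h5 h6
    obtain ⟨s, hs, h2, h3⟩ := exists_ord hf0 (mem_ord.1 hf.2)
    obtain ⟨t, rfl⟩ : ∃ t, s = r + t := ⟨s - r, by omega⟩
    obtain ⟨g, hg, h4, h5⟩ := key t f hf.1 h2 h3
    have : FiniteDimensional K ↥(RR P d o q w ⊓ ord (Polynomial.X - 1) r) :=
      Submodule.finiteDimensional_of_le inf_le_left
    have h6 : RR P d o q w ⊓ ord (Polynomial.X - 1) (r + 1) <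
        RR P d o q w ⊓ ord (Polynomial.X - 1) r := by
      refine lt_of_le_of_ne (inf_le_inf_left _ ord_succ_le) fun h7 => ?_
      have h8 : g ∈ RR P d o q w ⊓ ord (Polynomial.X - 1) r := ⟨hg, h4⟩
      rw [← h7] at h8
      exact h5 h8.2
    have h7 := Submodule.finrank_lt_finrank_of_lt h6
    omega

theorem ord_le (hP : AlgebraicIndependent ℚ (fun ij : Fin n × Fin 2 => P ij.1 ij.2))
    (hoq : o ≠ q) (hq : w q = 0) {r : ℕ} (hr : r ≤ finrank K (RR P d o q w)) :
    finrank K ↥(RR P d o q w ⊓ ord (Polynomial.X - 1) r) + r ≤ finrank K (RR P d o q w) := by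
  have : FiniteDimensional K ↥(RR P d o q w ⊓ ord (Polynomial.X - 1) r) :=
    Submodule.finiteDimensional_of_le inf_le_left
  by_cases h : 1 ≤ finrank K ↥(RR P d o q w ⊓ ord (Polynomial.X - 1) r)
  · exact ord_one hP hoq hq r (one_le_finrank_P.1 h)
  · omega

/-- The restriction sequence for the forms with a multiple point on the line. -/
theorem split_le (hP : AlgebraicIndependent ℚ (fun ij : Fin n × Fin 2 => P ij.1 ij.2))
    (hoq : o ≠ q) (hq : w q = 0) {r : ℕ} :
    finrank K (forms (Function.update w q (r + 1)) P (d + 1)) ≤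
      finrank K ↥(RR P (d + 1) o q w ⊓ ord (Polynomial.X - 1) (r + 1)) +
        finrank K (forms (Function.update (dec w o) q r) P d) := by
  have : FiniteDimensional K ↥(RR P (d + 1) o q w ⊓ ord (Polynomial.X - 1) (r + 1)) :=
    Submodule.finiteDimensional_of_le inf_le_left
  set V := forms (Function.update w q (r + 1)) P (d + 1) with hV
  have h1 := LinearMap.finrank_range_add_finrank_ker
    ((rho (P o) (P q)).toLinearMap.domRestrict V)
  have hne := ln_ne (a := P o) (b := P q) (fun h => hoq (inj_of_alg hP h))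
  have hinj : Function.Injective (LinearMap.mulLeft K (ln (P o) (P q))) := by
    intro a b hab
    rw [LinearMap.mulLeft_apply, LinearMap.mulLeft_apply] at hab
    exact mul_left_cancel₀ hne hab
  have hle : V ≤ forms w P (d + 1) := by
    refine forms_le fun i => ?_
    by_cases h : i = q
    · subst h
      rw [hq]
      exact Nat.zero_le _
    · rw [Function.update_of_ne h]
  have h2 : finrank K (LinearMap.range ((rho (P o) (P q)).toLinearMap.domRestrict V)) ≤
      finrank K ↥(RR P (d + 1) o q w ⊓ ord (Polynomial.X - 1) (r + 1)) := by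
    refine Submodule.finrank_mono ?_
    rintro _ ⟨F, rfl⟩
    refine ⟨mem_RR.2 ⟨F.1, hle F.2, rfl⟩, ?_⟩
    have h3 := (mem_forms.1 F.2).2 q
    rw [Function.update_self] at h3
    exact mem_ord.2 (rho_dvd_right h3)
  have h3 : finrank K (LinearMap.ker ((rho (P o) (P q)).toLinearMap.domRestrict V)) ≤
      finrank K (forms (Function.update (dec w o) q r) P d) := by
    rw [LinearEquiv.finrank_eq (Submodule.equivMapOfInjective _ hinj
      (forms (Function.update (dec w o) q r) P d))]
    have h4 : finrank K (LinearMap.ker ((rho (P o) (P q)).toLinearMap.domRestrict V)) =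
        finrank K ((LinearMap.ker ((rho (P o) (P q)).toLinearMap.domRestrict V)).map
          V.subtype) :=
      LinearEquiv.finrank_eq (Submodule.equivMapOfInjective _ V.injective_subtype _)
    rw [h4]
    refine Submodule.finrank_mono ?_
    rintro _ ⟨F, hF, rfl⟩
    have hF' : rho (P o) (P q) F.1 = 0 := hF
    obtain ⟨H, hH, h5⟩ := (ker_iff hP hoq hq).1 ⟨hle F.2, hF'⟩
    refine ⟨H, ?_, h5⟩
    rw [SetLike.mem_coe, mem_forms_van]
    rw [mem_forms_van] at hH
    refine ⟨hH.1, fun j => ?_⟩
    by_cases hj : j = q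
    · subst hj
      rw [Function.update_self]
      have h6 := (exc_line hP hoq).ord j
      rw [if_pos (Or.inr rfl)] at h6
      refine van_of_mul h6 ?_
      rw [h5]
      have h7 := (mem_forms_van.1 F.2).2 j
      rw [Function.update_self, add_comm] at h7
      exact h7
    · rw [Function.update_of_ne hj]
      exact hH.2 j
  omega

/-- **Jets at a general point, if pencils can be subtracted.** -/
theorem jets (hP : AlgebraicIndependent ℚ (fun ij : Fin n × Fin 2 => P ij.1 ij.2)) :
    ∀ (k : ℕ) (w κ : Fin n → ℕ), w q = 0 → κ q = 0 → ∑ j, κ j = k →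
    (∀ i, 1 ≤ κ i → w i ≤ d) → 1 ≤ finrank K (forms (low w κ) P d) →
    finrank K (forms (Function.update w q (k + 1)) P (d + k)) + (k + 2).choose 2 ≤
      finrank K (forms w P (d + k)) := by
  intro k
  induction k with
  | zero =>
    intro w κ hq _ h1 _ h2
    rw [low_zero h1] at h2
    obtain ⟨F, hF, hc⟩ := exists_exact hP h2 q
    have h3 : forms (Function.update w q 1) P d < forms w P d := by
      refine lt_of_le_of_ne (forms_le fun i => ?_) fun h4 => ?_
      · by_cases h : i = q
        · subst h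
          rw [hq]
          exact Nat.zero_le _
        · rw [Function.update_of_ne h]
      · rw [← h4, mem_forms'] at hF
        apply hc
        ext s
        rw [coeff_homogeneousComponent, coeff_zero]
        split_ifs with h5
        · refine hF.2 q s ?_
          rw [Function.update_self]
          omega
        · rfl
    have h4 := Submodule.finrank_lt_finrank_of_lt h3
    change finrank K (forms (Function.update w q 1) P d) + 1 ≤ finrank K (forms w P d)
    omega
  | succ k ih =>
    intro w κ hq hκq h1 hw h2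
    obtain ⟨o, ho⟩ := exists_pos_of_sum h1
    have hoq : o ≠ q := by
      rintro rfl
      omega
    have h3 := jets_line hP hoq (k + 1) w κ hq hκq h1 (hw o ho) h2
    have h4 := ih (dec w o) (dec κ o) (by rw [dec_of_ne hoq.symm, hq])
      (by rw [dec_of_ne hoq.symm, hκq]) (by have := sum_dec ho; omega)
      (fun i hi => (dec_le i).trans (hw i (hi.trans (dec_le i)))) (by rwa [low_dec ho])
    have e : d + (k + 1) = d + k + 1 := rfl
    rw [e] at h3 ⊢
    have h5 := ord_le hP hoq hq h3
    have h6 := finrank_split (d := d + k) hP hoq hq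
    have h7 := split_le (d := d + k) (r := k + 1) hP hoq hq
    have h8 : (k + 1 + 2).choose 2 = (k + 2).choose 1 + (k + 2).choose 2 :=
      Nat.choose_succ_succ' (k + 2) 1
    rw [Nat.choose_one_right] at h8
    have e2 : k + 1 + 1 = k + 2 := rfl
    rw [h8]
    rw [e2] at h5 h7 ⊢
    omega

end Pool.Agent.H55.PB
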