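import Pool.Agent.H51.SB.Harb
import Pool.Graph.R_pool_sql_team_seeded_c8625f6e.K4H28.SP.Four

set_option autoImplicit false
set_option linter.unusedSectionVars false

/-!
# The restriction of a linear system to a line through one of the points
-/

namespace Pool.Agent.H55.PB

open MvPolynomial Module Pool.Agent.W609.CR Pool.Agent.TH167.SH Pool.Agent.H248R5
  Pool.Agent.H248R6 Pool.Agent.K4H28.SP

section basic

variable {K : Type} [Field K]

/-- The restriction to the line through `a` and `b`; the point `a` is at `0`, and `b` at `1`. -/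
noncomputable def rho (a b : Fin 2 → K) : MvPolynomial (Fin 3) K →ₐ[K] Polynomial K :=
  aeval ![Polynomial.C (a 0) + Polynomial.C (b 0 - a 0) * Polynomial.X,
    Polynomial.C (a 1) + Polynomial.C (b 1 - a 1) * Polynomial.X, 1]

theorem rho_X0 (a b : Fin 2 → K) : rho a b (X 0) =
    Polynomial.C (a 0) + Polynomial.C (b 0 - a 0) * Polynomial.X := by
  unfold rho
  rw [aeval_X]
  rfl

theorem rho_X1 (a b : Fin 2 → K) : rho a b (X 1) =
    Polynomial.C (a 1) + Polynomial.C (b 1 - a 1) * Polynomial.X := by
  unfold rho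
  rw [aeval_X]
  rfl

theorem rho_X2 (a b : Fin 2 → K) : rho a b (X 2) = 1 := by
  unfold rho
  rw [aeval_X]
  rfl

theorem rho_C (a b : Fin 2 → K) (c : K) : rho a b (C c) = Polynomial.C c :=
  (rho a b).commutes c

theorem eval_rho (a b : Fin 2 → K) (t : K) (G : MvPolynomial (Fin 3) K) :
    Polynomial.eval t (rho a b G) =
      eval ![a 0 + (b 0 - a 0) * t, a 1 + (b 1 - a 1) * t, 1] G := by
  have h : ((Polynomial.evalRingHom t).comp ((rho a b : MvPolynomial (Fin 3) K →ₐ[K]
      Polynomial K) : MvPolynomial (Fin 3) K →+* Polynomial K)) =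
      eval ![a 0 + (b 0 - a 0) * t, a 1 + (b 1 - a 1) * t, 1] := by
    refine MvPolynomial.ringHom_ext (fun c => ?_) fun i => ?_
    · change Polynomial.eval t (rho a b (C c)) = eval _ (C c)
      rw [rho_C, Polynomial.eval_C, eval_C]
    · change Polynomial.eval t (rho a b (X i)) = eval _ (X i)
      rw [eval_X]
      fin_cases i
      · change Polynomial.eval t (rho a b (X 0)) = a 0 + (b 0 - a 0) * t
        rw [rho_X0]
        simp
      · change Polynomial.eval t (rho a b (X 1)) = a 1 + (b 1 - a 1) * t
        rw [rho_X1]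
        simp
      · change Polynomial.eval t (rho a b (X 2)) = 1
        rw [rho_X2]
        simp
  exact RingHom.congr_fun h G

theorem eval_smul_homog {σ : Type} {G : MvPolynomial σ K} {d : ℕ} (hG : G.IsHomogeneous d)
    (c : K) (x : σ → K) : eval (fun i => c * x i) G = c ^ d * eval x G := by
  classical
  rw [eval_eq, eval_eq, Finset.mul_sum]
  refine Finset.sum_congr rfl fun s hs => ?_
  have h1 := hG (mem_support_iff.1 hs)
  have h2 : s.degree = d := by
    rw [Finsupp.degree_eq_weight_one]
    exact h1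
  rw [Finset.prod_congr rfl fun i _ => mul_pow c (x i) (s i), Finset.prod_mul_distrib,
    Finset.prod_pow_eq_pow_sum]
  have h3 : ∑ i ∈ s.support, s i = d := h2
  rw [h3]
  ring

/-- A form which vanishes on the line is divisible by its equation. -/
theorem ln_dvd [CharZero K] {a b : Fin 2 → K} (hab : a 0 ≠ b 0) {G : MvPolynomial (Fin 3) K}
    {d : ℕ} (hG : G.IsHomogeneous d) (h0 : rho a b G = 0) : ln a b ∣ G := by
  have hne : b 0 - a 0 ≠ 0 := sub_ne_zero.2 hab.symm
  set κ : K := (b 1 - a 1) / (b 0 - a 0) with hκ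
  let σ : MvPolynomial (Fin 3) K →ₐ[K] MvPolynomial (Fin 3) K :=
    aeval ![X 0, C κ * (X 0 - C (a 0) * X 2) + C (a 1) * X 2, X 2]
  have hσ0 : σ (X 0) = X 0 := by
    change aeval _ (X 0) = _
    rw [aeval_X]
    rfl
  have hσ1 : σ (X 1) = C κ * (X 0 - C (a 0) * X 2) + C (a 1) * X 2 := by
    change aeval _ (X 1) = _
    rw [aeval_X]
    rfl
  have hσ2 : σ (X 2) = X 2 := by
    change aeval _ (X 2) = _
    rw [aeval_X]
    rfl
  have h1 : ∀ F : MvPolynomial (Fin 3) K, ln a b ∣ F - σ F := by
    intro F
    induction F using MvPolynomial.induction_on with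
    | C c =>
      have : σ (C c) = C c := σ.commutes c
      rw [this, sub_self]
      exact dvd_zero _
    | add F H hF hH =>
      rw [map_add]
      have : F + H - (σ F + σ H) = (F - σ F) + (H - σ H) := by ring
      rw [this]
      exact dvd_add hF hH
    | mul_X F i hF =>
      rw [map_mul]
      have e1 : F * X i - σ F * σ (X i) = (F - σ F) * X i + σ F * (X i - σ (X i)) := by ring
      rw [e1]
      refine dvd_add (Dvd.dvd.mul_right hF _) (Dvd.dvd.mul_left ?_ _)
      fin_cases i
      · change ln a b ∣ X 0 - σ (X 0)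
        rw [hσ0, sub_self]
        exact dvd_zero _
      · change ln a b ∣ X 1 - σ (X 1)
        rw [hσ1]
        refine ⟨C ((b 0 - a 0)⁻¹), ?_⟩
        have e2 : κ = (b 1 - a 1) * (b 0 - a 0)⁻¹ := by rw [hκ, div_eq_mul_inv]
        have e3 : (C ((b 0 - a 0) * (b 0 - a 0)⁻¹) : MvPolynomial (Fin 3) K) = 1 := by
          rw [mul_inv_cancel₀ hne, C_1]
        rw [e2]
        unfold ln
        have e4 : (X 1 : MvPolynomial (Fin 3) K) = X 1 * C ((b 0 - a 0) * (b 0 - a 0)⁻¹) := by
          rw [e3, mul_one]
        have e5 : (C (a 1) * X 2 : MvPolynomial (Fin 3) K) =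
            C (a 1) * X 2 * C ((b 0 - a 0) * (b 0 - a 0)⁻¹) := by
          rw [e3, mul_one]
        rw [e5]
        conv_lhs => rw [e4]
        simp only [C_mul, C_sub]
        ring
      · change ln a b ∣ X 2 - σ (X 2)
        rw [hσ2, sub_self]
        exact dvd_zero _
  have h2 : X 2 * σ G = 0 := by
    refine MvPolynomial.funext fun x => ?_
    rw [map_mul, eval_X, map_zero]
    by_cases hx : x 2 = 0
    · rw [hx, zero_mul]
    · have e1 : eval x (σ G) = eval ![x 0, κ * (x 0 - a 0 * x 2) + a 1 * x 2, x 2] G := by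
        have h : ((eval x).comp (σ : MvPolynomial (Fin 3) K →+* MvPolynomial (Fin 3) K)) =
            eval ![x 0, κ * (x 0 - a 0 * x 2) + a 1 * x 2, x 2] := by
          refine MvPolynomial.ringHom_ext (fun c => ?_) fun i => ?_
          · change eval x (σ (C c)) = eval _ (C c)
            have : σ (C c) = C c := σ.commutes c
            rw [this, eval_C, eval_C]
          · change eval x (σ (X i)) = eval _ (X i)
            rw [eval_X]
            fin_cases i
            · change eval x (σ (X 0)) = x 0
              rw [hσ0, eval_X]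
            · change eval x (σ (X 1)) = κ * (x 0 - a 0 * x 2) + a 1 * x 2
              rw [hσ1]
              simp
            · change eval x (σ (X 2)) = x 2
              rw [hσ2, eval_X]
        exact RingHom.congr_fun h G
      have e2 : (![x 0, κ * (x 0 - a 0 * x 2) + a 1 * x 2, x 2] : Fin 3 → K) =
          fun i => x 2 * (![a 0 + (b 0 - a 0) * ((x 0 / x 2 - a 0) / (b 0 - a 0)),
            a 1 + (b 1 - a 1) * ((x 0 / x 2 - a 0) / (b 0 - a 0)), 1] : Fin 3 → K) i := by
        funext i
        fin_cases i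
        · change x 0 = x 2 * (a 0 + (b 0 - a 0) * ((x 0 / x 2 - a 0) / (b 0 - a 0)))
          field_simp
          ring
        · change κ * (x 0 - a 0 * x 2) + a 1 * x 2 =
            x 2 * (a 1 + (b 1 - a 1) * ((x 0 / x 2 - a 0) / (b 0 - a 0)))
          rw [hκ]
          field_simp
          ring
        · change x 2 = x 2 * 1
          rw [mul_one]
      rw [e1, e2, eval_smul_homog hG, ← eval_rho, h0, Polynomial.eval_zero, mul_zero, mul_zero]
  have h3 : σ G = 0 := by
    rcases mul_eq_zero.1 h2 with h | h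
    · exact absurd h (X_ne_zero 2)
    · exact h
  have h4 := h1 G
  rwa [h3, sub_zero] at h4

/-- The two local coordinates on the line. -/
noncomputable def sig (v : Fin 2 → K) (g : Polynomial K) : MvPolynomial (Fin 2) K →ₐ[K]
    Polynomial K := aeval fun j => Polynomial.C (v j) * g

theorem sig_X (v : Fin 2 → K) (g : Polynomial K) (j : Fin 2) :
    sig v g (X j) = Polynomial.C (v j) * g := by
  unfold sig
  rw [aeval_X]

theorem sig_C (v : Fin 2 → K) (g : Polynomial K) (c : K) : sig v g (C c) = Polynomial.C c :=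
  (sig v g).commutes c

theorem rho_eq_left (a b : Fin 2 → K) (G : MvPolynomial (Fin 3) K) :
    rho a b G = sig (fun j => b j - a j) Polynomial.X (tau a G) := by
  have h : (sig (fun j => b j - a j) Polynomial.X).comp (tau a) = rho a b := by
    refine algHom_ext fun i => ?_
    fin_cases i
    · change sig _ _ (tau a (X 0)) = rho a b (X 0)
      rw [tau_X0, map_add, sig_X, sig_C, rho_X0, add_comm]
    · change sig _ _ (tau a (X 1)) = rho a b (X 1)
      rw [tau_X1, map_add, sig_X, sig_C, rho_X1, add_comm]
    · change sig _ _ (tau a (X 2)) = rho a b (X 2)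
      rw [tau_X2, map_one, rho_X2]
  exact (AlgHom.congr_fun h G).symm

theorem rho_eq_right (a b : Fin 2 → K) (G : MvPolynomial (Fin 3) K) :
    rho a b G = sig (fun j => b j - a j) (Polynomial.X - 1) (tau b G) := by
  have h : (sig (fun j => b j - a j) (Polynomial.X - 1)).comp (tau b) = rho a b := by
    refine algHom_ext fun i => ?_
    fin_cases i
    · change sig _ _ (tau b (X 0)) = rho a b (X 0)
      rw [tau_X0, map_add, sig_X, sig_C, rho_X0, Polynomial.C_sub]
      ring
    · change sig _ _ (tau b (X 1)) = rho a b (X 1)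
      rw [tau_X1, map_add, sig_X, sig_C, rho_X1, Polynomial.C_sub]
      ring
    · change sig _ _ (tau b (X 2)) = rho a b (X 2)
      rw [tau_X2, map_one, rho_X2]
  exact (AlgHom.congr_fun h G).symm

theorem sig_dvd (v : Fin 2 → K) (g : Polynomial K) {F : MvPolynomial (Fin 2) K} {m : ℕ}
    (hF : F ∈ (idealOfVars (Fin 2) K) ^ m) : g ^ m ∣ sig v g F := by
  have h := Ideal.mem_map_of_mem (sig v g) hF
  rw [Ideal.map_pow] at h
  have h1 : Ideal.map (sig v g) (idealOfVars (Fin 2) K) ≤ Ideal.span {g} := by
    unfold idealOfVars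
    rw [Ideal.map_span, Ideal.span_le]
    rintro _ ⟨_, ⟨j, rfl⟩, rfl⟩
    rw [SetLike.mem_coe, Ideal.mem_span_singleton]
    change g ∣ sig v g (X j)
    rw [sig_X]
    exact Dvd.intro_left _ rfl
  have h2 := Ideal.pow_right_mono h1 m h
  rwa [Ideal.span_singleton_pow, Ideal.mem_span_singleton] at h2

theorem rho_dvd_left {a b : Fin 2 → K} {G : MvPolynomial (Fin 3) K} {m : ℕ}
    (h : tau a G ∈ (idealOfVars (Fin 2) K) ^ m) : Polynomial.X ^ m ∣ rho a b G := by
  rw [rho_eq_left]
  exact sig_dvd _ _ h

theorem rho_dvd_right {a b : Fin 2 → K} {G : MvPolynomial (Fin 3) K} {m : ℕ}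
    (h : tau b G ∈ (idealOfVars (Fin 2) K) ^ m) : (Polynomial.X - 1) ^ m ∣ rho a b G := by
  rw [rho_eq_right]
  exact sig_dvd _ _ h

theorem natDegree_rho_le {a b : Fin 2 → K} {G : MvPolynomial (Fin 3) K} {d : ℕ}
    (hG : G.IsHomogeneous d) : rho a b G ∈ Polynomial.degreeLT K (d + 1) := by
  classical
  have hX : ∀ i : Fin 3, (rho a b (X i)).natDegree ≤ 1 := by
    have hlin : ∀ u v : K, (Polynomial.C u + Polynomial.C v * Polynomial.X).natDegree ≤ 1 := by
      intro u v
      refine (Polynomial.natDegree_add_le _ _).trans (max_le ?_ ?_)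
      · rw [Polynomial.natDegree_C]
        exact Nat.zero_le _
      · exact (Polynomial.natDegree_C_mul_le _ _).trans Polynomial.natDegree_X_le
    intro i
    fin_cases i
    · change (rho a b (X 0)).natDegree ≤ 1
      rw [rho_X0]
      exact hlin _ _
    · change (rho a b (X 1)).natDegree ≤ 1
      rw [rho_X1]
      exact hlin _ _
    · change (rho a b (X 2)).natDegree ≤ 1
      rw [rho_X2, Polynomial.natDegree_one]
      exact Nat.zero_le _
  have h1 : (rho a b G).natDegree ≤ d := by
    rw [G.as_sum, map_sum]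
    refine Polynomial.natDegree_sum_le_of_forall_le _ _ fun s hs => ?_
    have h2 := hG (mem_support_iff.1 hs)
    have h3 : s 0 + s 1 + s 2 = d := Pool.Agent.H932R2.sum_eq_of_homog hG (mem_support_iff.1 hs)
    rw [monomial_eq, map_mul, rho_C, Finsupp.prod_fintype _ _ (fun i => by simp), map_prod,
      Fin.prod_univ_three, map_pow, map_pow, map_pow]
    refine (Polynomial.natDegree_C_mul_le _ _).trans ?_
    refine Polynomial.natDegree_mul_le.trans ?_
    have e0 := Polynomial.natDegree_pow_le_of_le (s 0) (hX 0)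
    have e1 := Polynomial.natDegree_pow_le_of_le (s 1) (hX 1)
    have e2 := Polynomial.natDegree_pow_le_of_le (s 2) (hX 2)
    have e3 := Polynomial.natDegree_mul_le (p := rho a b (X 0) ^ s 0) (q := rho a b (X 1) ^ s 1)
    omega
  rw [Polynomial.mem_degreeLT]
  refine lt_of_le_of_lt Polynomial.degree_le_natDegree ?_
  exact_mod_cast Nat.lt_succ_of_le h1

end basic

end Pool.Agent.H55.PB
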