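import Pool.Agent.H55.PB.Bound

set_option autoImplicit false
set_option linter.unusedSectionVars false

/-!
# The range of Q1, and one point
-/

namespace Pool.Agent.H55.PB

open MvPolynomial Module Pool.Agent.W609.CR Pool.Agent.TH167.SH Pool.Agent.H248R5
  Pool.Agent.H248R6 Pool.Agent.K4H28.SP

variable {s : ℕ} {m κ : Fin s → ℕ} {d k e b : ℕ} {p : Fin s}

theorem sum_res (T : Finset (Fin s)) (g : ℕ → ℕ) (hg : g 0 = 0) :
    ∑ i, g (K4H28.SP.res m T i) = ∑ i ∈ T, g (m i) := by
  have h2 : ∑ i, g (K4H28.SP.res m T i) = ∑ i ∈ T, g (K4H28.SP.res m T i) := by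
    symm
    refine Finset.sum_subset (Finset.subset_univ _) fun i _ hi => ?_
    rw [res_not hi, hg]
  rw [h2]
  refine Finset.sum_congr rfl fun i hi => ?_
  unfold K4H28.SP.res
  rw [if_pos hi]

/-- In the range of Q1, multiplicities with sum at most `3 d` impose independent conditions. -/
theorem base_red (h : Red3 d m) {T : Finset (Fin s)} (hT : ∑ i ∈ T, m i ≤ 3 * d) :
    gd (K4H28.SP.res m T) d + ∑ i ∈ T, (m i + 1).choose 2 = (d + 2).choose 2 := by
  have h1 := Pool.Agent.H51.SB.gd_harb (m := K4H28.SP.res m T) (d := d) (h.res T) (by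
    rw [sum_res T (fun x => x) rfl]
    exact hT)
  rw [← h1, sum_res T (fun x => (x + 1).choose 2) rfl]

theorem red_fam (h : Red3 d m) (hd : m p + e = d) {j : ℕ} (hj : d ≤ j) :
    Red3 j (fam m p e j) := by
  obtain ⟨h1, h2, h3⟩ := h
  have hp : ∀ i, fam m p e j i ≤ m i + (if i = p then j - d else 0) := by
    intro i
    by_cases hi : i = p
    · subst hi
      rw [fam_self, if_pos rfl]
      omega
    · rw [fam_of_ne hi, if_neg hi, Nat.add_zero]
  refine ⟨fun i => ?_, fun i l hil => ?_, fun i l k hil hik hlk => ?_⟩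
  · have a1 := h1 i
    have b1 := hp i
    split_ifs at b1 <;> omega
  · have a1 := h2 i l hil
    have b1 := hp i
    have b2 := hp l
    by_cases c1 : i = p
    · subst c1
      rw [if_pos rfl] at b1
      rw [if_neg hil.symm] at b2
      omega
    · rw [if_neg c1] at b1
      split_ifs at b2 <;> omega
  · have a1 := h3 i l k hil hik hlk
    have b1 := hp i
    have b2 := hp l
    have b3 := hp k
    by_cases c1 : i = p
    · subst c1
      rw [if_pos rfl] at b1
      rw [if_neg hil.symm] at b2
      rw [if_neg hik.symm] at b3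
      omega
    · rw [if_neg c1] at b1
      by_cases c2 : l = p
      · subst c2
        rw [if_pos rfl] at b2
        rw [if_neg hlk.symm] at b3
        omega
      · rw [if_neg c2] at b2
        split_ifs at b3 <;> omega

/-- The base in the range of Q1. -/
theorem base_range (h : Red3 d m) (hd : m p + e = d) {T : Finset (Fin s)} (hp : p ∈ T)
    (hT : ∑ i ∈ T, m i ≤ 3 * d) : Base m p e T d := by
  classical
  intro j hj _
  refine base_red (red_fam h hd hj) ?_
  have h1 : ∑ i ∈ T, fam m p e j i = fam m p e j p + ∑ i ∈ T.erase p, fam m p e j i :=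
    (Finset.add_sum_erase _ _ hp).symm
  have h2 : ∑ i ∈ T, m i = m p + ∑ i ∈ T.erase p, m i :=
    (Finset.add_sum_erase _ _ hp).symm
  have h3 : ∑ i ∈ T.erase p, fam m p e j i = ∑ i ∈ T.erase p, m i :=
    Finset.sum_congr rfl fun i hi => fam_of_ne (Finset.mem_erase.1 hi).1
  rw [h1, fam_self, h3]
  omega

theorem gd_le_res {w : Fin s → ℕ} (T : Finset (Fin s)) : gd w d ≤ gd (K4H28.SP.res w T) d := by
  rw [← gd_res, ← gd_ext0]
  refine Submodule.finrank_mono (forms_le fun i => ?_)
  unfold K4H28.SP.res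
  split_ifs
  · exact le_rfl
  · exact Nat.zero_le _

/-- The base for one point. -/
theorem base_one : Base m p e {p} d := by
  intro j _ hne
  rw [Finset.sum_singleton]
  rcases gd_one (m := fam m p e j) (d := j) p with h | h
  · exact h
  · exfalso
    have h1 := gd_le_res (w := fam m p e j) (d := j) {p}
    unfold GG at hne
    omega

/-- A smaller sum of pencils. -/
theorem exists_le_sum : ∀ (r : ℕ) (κ : Fin s → ℕ), ∑ i, κ i = k + r →
    ∃ κ' : Fin s → ℕ, (∀ i, κ' i ≤ κ i) ∧ ∑ i, κ' i = k := by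
  intro r
  induction r with
  | zero => exact fun κ h => ⟨κ, fun _ => le_rfl, h⟩
  | succ r ih =>
    intro κ h
    obtain ⟨i, hi⟩ := exists_pos_of_sum (k := k + r) h
    obtain ⟨κ', h1, h2⟩ := ih (dec κ i) (by
      have := sum_dec hi
      omega)
    exact ⟨κ', fun j => (h1 j).trans (dec_le j), h2⟩

/-- **The criterion.** -/
theorem criterion (h : Red3 d m) {T : Finset (Fin s)} {t : Fin s} (ht : t ∈ T)
    (hT : ∑ i ∈ T, m i ≤ 3 * d) (hb : ∀ i, i ∉ T → m i ≤ b) (hbd : ∀ i, m i + b ≤ d + 1)
    (hκ : b ≤ ∑ i, κ i + 1) (hκd : ∑ i, κ i ≤ d) (hne : 1 ≤ gd (low m κ) (d - ∑ i, κ i)) :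
    gd m d + ∑ i, (m i + 1).choose 2 = (d + 2).choose 2 := by
  classical
  obtain ⟨κ', h1, h2⟩ := exists_le_sum (k := b - 1) (∑ i, κ i - (b - 1)) κ (by omega)
  have h3 : ∑ i, (κ i - κ' i) = ∑ i, κ i - (b - 1) := by
    have h4 : ∑ i, κ' i + ∑ i, (κ i - κ' i) = ∑ i, κ i := by
      rw [← Finset.sum_add_distrib]
      refine Finset.sum_congr rfl fun i _ => ?_
      have := h1 i
      omega
    omega
  have hbd' : b - 1 ≤ d := by omega
  have hP := gpt_ind s
  have h5 : 1 ≤ gd (low m κ') (d - (b - 1)) := by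
    have h6 := ne_low (P := gpt s) (d := d - ∑ i, κ i) (∑ i, κ i - (b - 1)) (low m κ')
      (fun i => κ i - κ' i) h3 (by
        have e : low (low m κ') (fun i => κ i - κ' i) = low m κ := by
          funext i
          have h7 := h1 i
          change m i - κ' i - (κ i - κ' i) = m i - κ i
          omega
        rw [e, finrank_gen hP]
        exact hne)
    rw [finrank_gen hP] at h6
    have e1 : d - ∑ i, κ i + (∑ i, κ i - (b - 1)) = d - (b - 1) := by omega
    rwa [e1] at h6
  have e1 : d - (b - 1) + (b - 1) = d := by omega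
  have h6 := gd_pencils (m := m) (κ := κ') (d := d - (b - 1)) (k := b - 1) h2
    (fun i _ => by
      have h7 := hbd i
      have h8 := h.1 i
      omega) h5 ht (by
      have h7 := hbd t
      have h8 := h.1 t
      omega)
    (fun i hi => by have := hb i hi; omega) (by
      rw [e1]
      exact base_red h hT)
  rwa [e1] at h6

end Pool.Agent.H55.PB
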