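import Pool.Agent.H55.PB.Line

set_option autoImplicit false
set_option linter.unusedSectionVars false

/-!
# The forms which vanish on the line
-/

namespace Pool.Agent.H55.PB

open MvPolynomial Module Pool.Agent.W609.CR Pool.Agent.TH167.SH Pool.Agent.H248R5
  Pool.Agent.H248R6 Pool.Agent.K4H28.SP

variable {K : Type} [Field K] [CharZero K] {n : ℕ}
variable {P : Fin n → Fin 2 → K} {d : ℕ} {o q : Fin n} {w w' : Fin n → ℕ}

/-- The multiplicity at the point with index `o` is lowered by one. -/
def dec (w : Fin n → ℕ) (o : Fin n) : Fin n → ℕ := Function.update w o (w o - 1)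

theorem dec_self : dec w o o = w o - 1 := Function.update_self _ _ _

theorem dec_of_ne {i : Fin n} (h : i ≠ o) : dec w o i = w i := Function.update_of_ne h _ _

theorem dec_le (i : Fin n) : dec w o i ≤ w i := by
  by_cases h : i = o
  · subst h
    rw [dec_self]
    exact Nat.sub_le _ _
  · rw [dec_of_ne h]

theorem mem_forms_van {f : MvPolynomial (Fin 3) K} :
    f ∈ forms w P d ↔ f.IsHomogeneous d ∧ ∀ j, Van (aff (P j)) (w j) f := by
  rw [← vs_eq_forms, mem_VS]

theorem rho_ln (a b : Fin 2 → K) : rho a b (ln a b) = 0 := by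
  unfold ln
  rw [map_add, map_add, map_mul, map_mul, map_mul, rho_C, rho_C, rho_C, rho_X0, rho_X1, rho_X2]
  have e : ∀ x y z : K, x = 0 → y = 0 → Polynomial.C x + Polynomial.C y * Polynomial.X = 0 := by
    intro x y _ hx hy
    rw [hx, hy]
    simp
  have h1 := e (a 1 * a 0 - b 1 * a 0 + (b 0 * a 1 - a 0 * a 1) + (a 0 * b 1 - a 1 * b 0))
    ((a 1 - b 1) * (b 0 - a 0) + (b 0 - a 0) * (b 1 - a 1)) 0 (by ring) (by ring)
  rw [← h1]
  simp only [Polynomial.C_add, Polynomial.C_sub, Polynomial.C_mul]
  ring

theorem pt_ne (hP : AlgebraicIndependent ℚ (fun ij : Fin n × Fin 2 => P ij.1 ij.2))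
    {i j : Fin n} (h : i ≠ j) (b c : Fin 2) : P i b ≠ P j c := by
  intro h1
  have h2 := hP.injective (a₁ := (i, b)) (a₂ := (j, c)) h1
  exact h (Prod.mk.inj h2).1

/-- The forms which vanish on the line through the points with the indices `o` and `q`. -/
theorem ker_iff (hP : AlgebraicIndependent ℚ (fun ij : Fin n × Fin 2 => P ij.1 ij.2))
    (hoq : o ≠ q) (hq : w q = 0) {G : MvPolynomial (Fin 3) K} :
    (G ∈ forms w P (d + 1) ∧ rho (P o) (P q) G = 0) ↔
      ∃ H ∈ forms (dec w o) P d, ln (P o) (P q) * H = G := by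
  have hL := exc_line hP hoq
  have hne := ln_ne (a := P o) (b := P q) (fun h => hoq (inj_of_alg hP h))
  constructor
  · rintro ⟨h1, h2⟩
    rw [mem_forms_van] at h1
    obtain ⟨H, hH⟩ := ln_dvd (pt_ne hP hoq 0 0) h1.1 h2
    refine ⟨H, ?_, hH.symm⟩
    rw [mem_forms_van]
    by_cases hH0 : H = 0
    · rw [hH0]
      refine ⟨isHomogeneous_zero _ _ _, fun j => ?_⟩
      unfold Van
      exact Submodule.zero_mem _
    have hG0 : G ≠ 0 := by
      rw [hH]
      exact mul_ne_zero hne hH0
    constructor
    · have h3 := Pool.Agent.Chud.homog_of_dvd h1.1 hG0 ⟨ln (P o) (P q), by rw [hH, mul_comm]⟩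
      have h4 : G.totalDegree = d + 1 := h1.1.totalDegree hG0
      rw [hH, MvPolynomial.totalDegree_mul_of_isDomain hne hH0, (ln_hom _ _).totalDegree hne] at h4
      have h5 : H.totalDegree = d := by omega
      rwa [h5] at h3
    · intro j
      by_cases hjo : j = o
      · subst hjo
        rw [dec_self]
        rcases Nat.eq_zero_or_pos (w j) with h0 | h0
        · rw [h0]
          exact van_zero _ _
        · have h3 := hL.ord j
          rw [if_pos (Or.inl rfl)] at h3
          refine van_of_mul h3 ?_
          rw [← hH]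
          have h4 := h1.2 j
          have h5 : 1 + (w j - 1) = w j := by omega
          rwa [h5]
      · rw [dec_of_ne hjo]
        by_cases hjq : j = q
        · subst hjq
          rw [hq]
          exact van_zero _ _
        · have h3 := hL.ord j
          rw [if_neg (by tauto)] at h3
          refine van_of_mul h3 ?_
          rw [← hH, Nat.zero_add]
          exact h1.2 j
  · rintro ⟨H, hH, rfl⟩
    rw [mem_forms_van] at hH
    refine ⟨?_, ?_⟩
    · rw [mem_forms_van]
      refine ⟨?_, fun j => ?_⟩
      · rw [add_comm]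
        exact (ln_hom _ _).mul hH.1
      · by_cases hjo : j = o
        · subst hjo
          have h1 := hH.2 j
          rw [dec_self] at h1
          exact van_mono (by omega) (van_mul (ln_left (P j) (P q)) h1)
        · have h1 := hH.2 j
          rw [dec_of_ne hjo] at h1
          have h2 := van_mul (van_zero (aff (P j)) (ln (P o) (P q))) h1
          rwa [Nat.zero_add] at h2
    · rw [map_mul, rho_ln, zero_mul]

/-- The restriction of the system to the line. -/
noncomputable def RR (P : Fin n → Fin 2 → K) (d : ℕ) (o q : Fin n) (w : Fin n → ℕ) :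
    Submodule K (Polynomial K) := (forms w P d).map (rho (P o) (P q)).toLinearMap

theorem mem_RR {g : Polynomial K} : g ∈ RR P d o q w ↔
    ∃ F ∈ forms w P d, rho (P o) (P q) F = g := Iff.rfl

instance : FiniteDimensional K ↥(RR P d o q w) := by
  unfold RR
  infer_instance

theorem RR_le : RR P d o q w ≤ Polynomial.degreeLT K (d + 1) := by
  rintro _ ⟨F, hF, rfl⟩
  exact natDegree_rho_le (mem_forms.1 hF).1

theorem RR_mono (h : ∀ i, w i ≤ w' i) : RR P d o q w' ≤ RR P d o q w :=
  Submodule.map_mono (forms_le h)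

/-- **The restriction sequence.** -/
theorem finrank_split (hP : AlgebraicIndependent ℚ (fun ij : Fin n × Fin 2 => P ij.1 ij.2))
    (hoq : o ≠ q) (hq : w q = 0) :
    finrank K (forms w P (d + 1)) =
      finrank K (RR P (d + 1) o q w) + finrank K (forms (dec w o) P d) := by
  have h1 := LinearMap.finrank_range_add_finrank_ker
    ((rho (P o) (P q)).toLinearMap.domRestrict (forms w P (d + 1)))
  have hne := ln_ne (a := P o) (b := P q) (fun h => hoq (inj_of_alg hP h))
  have hinj : Function.Injective (LinearMap.mulLeft K (ln (P o) (P q))) := by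
    intro a b hab
    rw [LinearMap.mulLeft_apply, LinearMap.mulLeft_apply] at hab
    exact mul_left_cancel₀ hne hab
  have hle : (forms (dec w o) P d).map (LinearMap.mulLeft K (ln (P o) (P q))) ≤
      forms w P (d + 1) := by
    rintro _ ⟨H, hH, rfl⟩
    exact ((ker_iff hP hoq hq).2 ⟨H, hH, rfl⟩).1
  have h2 : LinearMap.ker ((rho (P o) (P q)).toLinearMap.domRestrict (forms w P (d + 1))) =
      ((forms (dec w o) P d).map (LinearMap.mulLeft K (ln (P o) (P q)))).comap
        (forms w P (d + 1)).subtype := by
    ext f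
    rw [LinearMap.mem_ker, LinearMap.domRestrict_apply, Submodule.mem_comap,
      Submodule.subtype_apply, Submodule.mem_map]
    constructor
    · intro h
      obtain ⟨H, hH, h3⟩ := (ker_iff hP hoq hq).1 ⟨f.2, h⟩
      exact ⟨H, hH, h3⟩
    · rintro ⟨H, hH, h3⟩
      exact ((ker_iff hP hoq hq).2 ⟨H, hH, h3⟩).2
  rw [h2, LinearMap.range_domRestrict, LinearEquiv.finrank_eq
    (Submodule.comapSubtypeEquivOfLe hle), ← LinearEquiv.finrank_eq
    (Submodule.equivMapOfInjective _ hinj _)] at h1
  rw [← h1]
  rfl

end Pool.Agent.H55.PB
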