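import Pool.Agent.H55.PB.Exact

set_option autoImplicit false
set_option linter.unusedSectionVars false

/-!
# The restrictions to the line grow if the line is added
-/

namespace Pool.Agent.H55.PB

open MvPolynomial Module Pool.Agent.W609.CR Pool.Agent.TH167.SH Pool.Agent.H248R5
  Pool.Agent.H248R6 Pool.Agent.K4H28.SP

variable {K : Type} [Field K] [CharZero K] {n : ℕ}
variable {P : Fin n → Fin 2 → K} {d : ℕ} {o q : Fin n} {w w' : Fin n → ℕ}

theorem X_pd_mem {f : MvPolynomial (Fin 2) K} {m : ℕ} (hf : f ∈ (idealOfVars (Fin 2) K) ^ m)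
    (a b : Fin 2) : X a * pderiv b f ∈ (idealOfVars (Fin 2) K) ^ m := by
  classical
  rw [mem_pow_idealOfVars_iff'] at hf ⊢
  intro s hs
  rw [coeff_X_mul']
  split_ifs with h
  · rw [coeff_pderiv, hf, zero_mul]
    have h1 : Finsupp.single a 1 ≤ s := by
      rw [Finsupp.single_le_iff]
      have := Finsupp.mem_support_iff.1 h
      omega
    have h2 : (s - Finsupp.single a 1).degree + 1 = s.degree := by
      conv_rhs => rw [← tsub_add_cancel_of_le h1]
      rw [map_add, Finsupp.degree_single]
    rw [map_add, Finsupp.degree_single]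
    omega
  · rfl

theorem dG_mem_pow {f : MvPolynomial (Fin 2) K} {m : ℕ} (D : Derivation ℚ K K)
    (hf : f ∈ (idealOfVars (Fin 2) K) ^ m) : dG D f ∈ (idealOfVars (Fin 2) K) ^ m := by
  rw [mem_pow_idealOfVars_iff'] at hf ⊢
  intro s hs
  rw [coeff_dG, hf s hs, map_zero]

/-- Moving one point. -/
theorem forms_dG_dec {D : Derivation ℚ K K} {i : Fin n}
    (hD : ∀ j, j ≠ i → w j ≠ 0 → ∀ b, D (P j b) = 0)
    {f : MvPolynomial (Fin 3) K} (hf : f ∈ forms w P d) : dG D f ∈ forms (dec w i) P d := by
  rw [mem_forms'] at hf ⊢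
  refine ⟨dG_homog D hf.1, fun j s hs => ?_⟩
  by_cases hj : j = i
  · subst hj
    rw [dec_self] at hs
    rw [tau_dG, coeff_sub, coeff_dG, hf.2 j s (by omega), map_zero, coeff_sum,
      Finset.sum_eq_zero, sub_zero]
    intro b _
    rw [coeff_C_mul, coeff_pderiv, hf.2 j, zero_mul, mul_zero]
    rw [map_add, Finsupp.degree_single]
    omega
  · rw [dec_of_ne hj] at hs
    rw [tau_dG, Finset.sum_eq_zero, sub_zero, coeff_dG, hf.2 j s hs, map_zero]
    intro b _
    rw [hD j hj (by omega) b, C_0, zero_mul]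

theorem ln_mul_mem {i : Fin n} (hio : i ≠ o) {G : MvPolynomial (Fin 3) K}
    (hG : G ∈ forms (dec (dec w o) i) P d) : ln (P o) (P i) * G ∈ forms w P (d + 1) := by
  rw [mem_forms_van] at hG ⊢
  refine ⟨?_, fun j => ?_⟩
  · rw [add_comm]
    exact (ln_hom _ _).mul hG.1
  · have h1 := hG.2 j
    by_cases hjo : j = o
    · subst hjo
      rw [dec_of_ne hio.symm, dec_self] at h1
      exact van_mono (by omega) (van_mul (ln_left (P j) (P i)) h1)
    · by_cases hji : j = i
      · subst hji
        rw [dec_self, dec_of_ne hio] at h1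
        exact van_mono (by omega) (van_mul (ln_right (P o) (P j)) h1)
      · rw [dec_of_ne hji, dec_of_ne hjo] at h1
        have h2 := van_mul (van_zero (aff (P j)) (ln (P o) (P i))) h1
        rwa [Nat.zero_add] at h2

/-- The linear form which vanishes on a line through the point `a`. -/
noncomputable def la (a : Fin 2 → K) : MvPolynomial (Fin 3) K := X 0 - C (a 0) * X 2

theorem la_hom (a : Fin 2 → K) : (la a).IsHomogeneous 1 := homog_lin 0 (a 0)

theorem rho_la (a b : Fin 2 → K) : rho a b (la a) = Polynomial.C (b 0 - a 0) * Polynomial.X := by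
  unfold la
  rw [map_sub, map_mul, rho_X0, rho_C, rho_X2]
  ring

theorem tau_la (a p : Fin 2 → K) : tau p (la a) = X 0 + C (p 0 - a 0) := by
  unfold la
  rw [map_sub, map_mul, tau_X0, tau_C, tau_X2, mul_one, C_sub]
  ring

theorem la_mul_mem {G : MvPolynomial (Fin 3) K} (hG : G ∈ forms (dec w o) P d) :
    la (P o) * G ∈ forms w P (d + 1) := by
  rw [mem_forms_van] at hG ⊢
  refine ⟨?_, fun j => ?_⟩
  · rw [add_comm]
    exact (la_hom _).mul hG.1
  · have h1 := hG.2 j
    by_cases hjo : j = o
    · subst hjo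
      rw [dec_self] at h1
      have h2 : Van (aff (P j)) 1 (la (P j)) := by
        rw [van_one]
        simp [la, aff]
      exact van_mono (by omega) (van_mul h2 h1)
    · rw [dec_of_ne hjo] at h1
      have h2 := van_mul (van_zero (aff (P j)) (la (P o))) h1
      rwa [Nat.zero_add] at h2

/-- The derivative in the direction of the vector of a point. -/
noncomputable def dv (a : Fin 2 → K) (F : MvPolynomial (Fin 3) K) : MvPolynomial (Fin 3) K :=
  C (a 0) * pderiv 0 F + C (a 1) * pderiv 1 F + pderiv 2 F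

theorem euler3 {F : MvPolynomial (Fin 3) K} (hF : F.IsHomogeneous d) :
    X 0 * pderiv 0 F + X 1 * pderiv 1 F + X 2 * pderiv 2 F = C (d : K) * F := by
  have h := hF.sum_X_mul_pderiv
  rw [Fin.sum_univ_three] at h
  rw [h, ← smul_eq_C_mul, Nat.cast_smul_eq_nsmul]

theorem tau_dv {F : MvPolynomial (Fin 3) K} (hF : F.IsHomogeneous d) (a p : Fin 2 → K) :
    tau p (dv a F) = C (a 0 - p 0) * pderiv 0 (tau p F) + C (a 1 - p 1) * pderiv 1 (tau p F) +
      C (d : K) * tau p F - X 0 * pderiv 0 (tau p F) - X 1 * pderiv 1 (tau p F) := by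
  have h := congrArg (tau p) (euler3 hF)
  simp only [map_add, map_mul, tau_X0, tau_X1, tau_X2, tau_C, tau_pderiv0, tau_pderiv1,
    one_mul] at h
  unfold dv
  simp only [map_add, map_mul, tau_C, tau_pderiv0, tau_pderiv1, C_sub]
  linear_combination h

theorem deriv_rho (a b : Fin 2 → K) (F : MvPolynomial (Fin 3) K) :
    Polynomial.derivative (rho a b F) = Polynomial.C (b 0 - a 0) * rho a b (pderiv 0 F) +
      Polynomial.C (b 1 - a 1) * rho a b (pderiv 1 F) := by
  induction F using MvPolynomial.induction_on with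
  | C c => simp [rho_C]
  | add F G hF hG =>
    simp only [map_add, hF, hG]
    ring
  | mul_X F i hF =>
    rw [map_mul, Polynomial.derivative_mul, hF, pderiv_mul, pderiv_mul, map_add, map_add,
      map_mul, map_mul, map_mul, map_mul]
    fin_cases i
    · change _ + rho a b F * Polynomial.derivative (rho a b (X 0)) =
        Polynomial.C (b 0 - a 0) * (_ + _ * rho a b (pderiv 0 (X 0))) +
        Polynomial.C (b 1 - a 1) * (_ + _ * rho a b (pderiv 1 (X 0)))
      rw [pderiv_X_self, pderiv_X_of_ne (by decide), map_one, map_zero, rho_X0]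
      simp only [Polynomial.derivative_add, Polynomial.derivative_C, Polynomial.derivative_mul,
        Polynomial.derivative_X]
      ring
    · change _ + rho a b F * Polynomial.derivative (rho a b (X 1)) =
        Polynomial.C (b 0 - a 0) * (_ + _ * rho a b (pderiv 0 (X 1))) +
        Polynomial.C (b 1 - a 1) * (_ + _ * rho a b (pderiv 1 (X 1)))
      rw [pderiv_X_self, pderiv_X_of_ne (by decide), map_one, map_zero, rho_X1]
      simp only [Polynomial.derivative_add, Polynomial.derivative_C, Polynomial.derivative_mul,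
        Polynomial.derivative_X]
      ring
    · change _ + rho a b F * Polynomial.derivative (rho a b (X 2)) =
        Polynomial.C (b 0 - a 0) * (_ + _ * rho a b (pderiv 0 (X 2))) +
        Polynomial.C (b 1 - a 1) * (_ + _ * rho a b (pderiv 1 (X 2)))
      rw [pderiv_X_of_ne (by decide), pderiv_X_of_ne (by decide), map_zero, rho_X2]
      simp only [Polynomial.derivative_one]
      ring

theorem rho_dv {F : MvPolynomial (Fin 3) K} (hF : F.IsHomogeneous d) (a b : Fin 2 → K) :
    rho a b (dv a F) = Polynomial.C (d : K) * rho a b F -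
      Polynomial.X * Polynomial.derivative (rho a b F) := by
  have h := congrArg (rho a b) (euler3 hF)
  simp only [map_add, map_mul, rho_X0, rho_X1, rho_X2, rho_C, one_mul] at h
  rw [deriv_rho]
  unfold dv
  simp only [map_add, map_mul, rho_C]
  linear_combination h

theorem dP_C (D : Derivation ℚ K K) (c : K) : dP D (Polynomial.C c) = Polynomial.C (D c) := by
  ext i
  rw [coeff_dP, Polynomial.coeff_C, Polynomial.coeff_C]
  split_ifs
  · rfl
  · exact map_zero D

theorem dP_X (D : Derivation ℚ K K) : dP D (Polynomial.X : Polynomial K) = 0 := by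
  have := dP_X_pow D 1
  rwa [pow_one] at this

/-- The chain rule on the line. -/
theorem rho_dG (D : Derivation ℚ K K) (a b : Fin 2 → K) (F : MvPolynomial (Fin 3) K) :
    rho a b (dG D F) = dP D (rho a b F) -
      ∑ c : Fin 2, dP D (rho a b (X c.castSucc)) * rho a b (pderiv c.castSucc F) := by
  have hc0 : (0 : Fin 2).castSucc = (0 : Fin 3) := rfl
  have hc1 : (1 : Fin 2).castSucc = (1 : Fin 3) := rfl
  rw [Fin.sum_univ_two, hc0, hc1]
  induction F using MvPolynomial.induction_on with
  | C c =>
    rw [dG_C, rho_C, rho_C, dP_C, pderiv_C, pderiv_C, map_zero]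
    ring
  | add F G hF hG =>
    rw [dG_add, map_add, hF, hG]
    simp only [map_add, dP_add]
    ring
  | mul_X F i hF =>
    rw [dG_mul, dG_X, mul_zero, add_zero, map_mul, hF, map_mul, dP_mul, pderiv_mul, pderiv_mul,
      map_add, map_add, map_mul, map_mul, map_mul, map_mul]
    fin_cases i
    · change _ = _ + _ * dP D (rho a b (X 0)) - (_ * (_ + _ * rho a b (pderiv 0 (X 0))) +
        _ * (_ + _ * rho a b (pderiv 1 (X 0))))
      rw [pderiv_X_self, pderiv_X_of_ne (by decide), map_one, map_zero]
      simp only [Fin.zero_eta]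
      ring
    · change _ = _ + _ * dP D (rho a b (X 1)) - (_ * (_ + _ * rho a b (pderiv 0 (X 1))) +
        _ * (_ + _ * rho a b (pderiv 1 (X 1))))
      rw [pderiv_X_self, pderiv_X_of_ne (by decide), map_one, map_zero]
      simp only [Fin.mk_one]
      ring
    · change _ * rho a b (X 2) = _ * rho a b (X 2) + _ * dP D (rho a b (X 2)) -
        (_ * (_ * rho a b (X 2) + _ * rho a b (pderiv 0 (X 2))) +
        _ * (_ * rho a b (X 2) + _ * rho a b (pderiv 1 (X 2))))
      rw [pderiv_X_of_ne (by decide), pderiv_X_of_ne (by decide), map_zero, rho_X2]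
      have h1 : dP D (1 : Polynomial K) = 0 := by
        have := dP_X_pow D 0
        rwa [pow_zero] at this
      rw [h1]
      ring

/-- Derivations which do not move the line. -/
theorem rho_dG_fix {D : Derivation ℚ K K} {a b : Fin 2 → K} (ha : ∀ c, D (a c) = 0)
    (hb : ∀ c, D (b c) = 0) (F : MvPolynomial (Fin 3) K) :
    rho a b (dG D F) = dP D (rho a b F) := by
  have hc0 : (0 : Fin 2).castSucc = (0 : Fin 3) := rfl
  have hc1 : (1 : Fin 2).castSucc = (1 : Fin 3) := rfl
  have h0 : D (b 0 - a 0) = 0 := by rw [map_sub, ha, hb, sub_zero]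
  have h1 : D (b 1 - a 1) = 0 := by rw [map_sub, ha, hb, sub_zero]
  rw [rho_dG, Fin.sum_univ_two, hc0, hc1, rho_X0, rho_X1, dP_add, dP_mul, dP_C, dP_C, dP_X,
    dP_add, dP_mul, dP_C, dP_C, dP_X, h0, h1, ha 0, ha 1]
  simp

end Pool.Agent.H55.PB
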